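import Pool.Agent.X19.KE.Energy

/-!
# Decay in the mean square
-/

set_option autoImplicit false

open Set Filter Topology MeasureTheory

namespace Pool.Agent.X19.KE

set_option linter.unusedSectionVars false

variable {H : Type*} [NormedAddCommGroup H] [NormedSpace ℝ H]

/-- The tail of the square integral. -/
noncomputable def tail (u : ℝ → H) (s : ℝ) : ℝ := ∫ t in Ioi s, ‖u t‖ ^ 2

variable {A : H →L[ℝ] H} {u f y : ℝ → H} {M F : ℝ}

theorem tail_nonneg (u : ℝ → H) (s : ℝ) : 0 ≤ tail u s :=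
  setIntegral_nonneg measurableSet_Ioi fun _ _ => by positivity

theorem sq_intInt (hu : AEStronglyMeasurable u volume) (hb : ∀ᵐ t, ‖u t‖ ≤ M) (a b : ℝ) :
    IntervalIntegrable (fun t => ‖u t‖ ^ 2) volume a b := by
  refine intInt (C := M ^ 2) (hu.norm.pow 2) ?_ a b
  filter_upwards [hb] with t ht
  rw [Real.norm_eq_abs, Pi.pow_apply, abs_of_nonneg (sq_nonneg _)]
  exact pow_le_pow_left₀ (norm_nonneg _) ht 2

theorem tail_sub (hi : IntegrableOn (fun t => ‖u t‖ ^ 2) (Ioi 0)) (a b : ℝ) (ha : 0 ≤ a)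
    (hab : a ≤ b) : ∫ t in a..b, ‖u t‖ ^ 2 = tail u a - tail u b := by
  have h1 : IntegrableOn (fun t => ‖u t‖ ^ 2) (Ioi a) := hi.mono_set (Ioi_subset_Ioi ha)
  rw [intervalIntegral.integral_of_le hab]
  have h2 : Ioi a = Ioc a b ∪ Ioi b := (Ioc_union_Ioi_eq_Ioi hab).symm
  have h3 : tail u a = (∫ t in Ioc a b, ‖u t‖ ^ 2) + tail u b := by
    unfold tail
    rw [h2]
    refine setIntegral_union ?_ measurableSet_Ioi (h1.mono_set Ioc_subset_Ioi_self)
      (h1.mono_set (Ioi_subset_Ioi hab))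
    exact Set.disjoint_left.2 fun x hx hx' => not_lt.2 hx.2 hx'
  rw [h3]
  ring

theorem tail_anti (hi : IntegrableOn (fun t => ‖u t‖ ^ 2) (Ioi 0)) (a b : ℝ) (ha : 0 ≤ a)
    (hab : a ≤ b) : tail u b ≤ tail u a := by
  have h1 := tail_sub hi a b ha hab
  have h2 : 0 ≤ ∫ t in a..b, ‖u t‖ ^ 2 :=
    intervalIntegral.integral_nonneg hab fun t _ => by positivity
  linarith

/-- Averaging over a unit interval. -/
theorem avg (hi : IntegrableOn (fun t => ‖u t‖ ^ 2) (Ioi 0)) (s X κ : ℝ) (hs : 0 ≤ s)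
    (hX : ∀ᵐ a, a ∈ Ioc s (s + 1) → X ≤ κ * ‖u a‖ ^ 2) :
    X ≤ κ * (tail u s - tail u (s + 1)) := by
  rw [← tail_sub hi s (s + 1) hs (by linarith), ← intervalIntegral.integral_const_mul]
  have hint : IntervalIntegrable (fun t => κ * ‖u t‖ ^ 2) volume s (s + 1) := by
    refine IntervalIntegrable.const_mul ?_ κ
    rw [intervalIntegrable_iff_integrableOn_Ioc_of_le (by linarith)]
    exact hi.mono_set fun t ht => lt_of_le_of_lt hs ht.1
  have h1 : ∫ _ in s..(s + 1), X ≤ ∫ t in s..(s + 1), κ * ‖u t‖ ^ 2 := by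
    refine intervalIntegral.integral_mono_ae_restrict (by linarith) intervalIntegrable_const hint ?_
    have h0 : ∀ᵐ a ∂(volume.restrict (Icc s (s + 1))), a ≠ s := by
      refine ae_restrict_of_ae ?_
      simp [ae_iff, measure_singleton]
    filter_upwards [ae_restrict_of_ae hX, ae_restrict_mem measurableSet_Icc, h0] with a h2 h3 h4
    exact h2 ⟨lt_of_le_of_ne h3.1 (Ne.symm h4), h3.2⟩
  rw [intervalIntegral.integral_const] at h1
  simpa using h1

/-- Square integrability and the tail bound. -/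
theorem decay [CompleteSpace H] (β : H →L[ℝ] H →L[ℝ] ℝ) (hsym : ∀ x y, β (A x) y = β (A y) x)
    (hβ : ∀ x y, |β x y| ≤ ‖x‖ * ‖y‖) (hs : Sol A u f y M F) (c : ℝ) (hc : 0 < c)
    (hneg : ∀ᵐ t, 0 < t → β (f t) (u t) ≤ -(c * ‖u t‖ ^ 2)) :
    IntegrableOn (fun t => ‖u t‖ ^ 2) (Ioi 0) ∧
      (∀ᵐ a, 0 < a → 2 * c * tail u a ≤ ‖A (u a)‖ * ‖u a‖) := by
  obtain ⟨G, hG, hGE⟩ := energy β hsym hs
  have hM0 : 0 ≤ M := by
    obtain ⟨t, ht⟩ := hs.ub.exists
    exact (norm_nonneg _).trans ht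
  have hint : ∀ a b, IntervalIntegrable (fun t => ‖u t‖ ^ 2) volume a b := sq_intInt hs.um hs.ub
  have hβint : ∀ a b, IntervalIntegrable (fun t => β (f t) (u t)) volume a b := by
    have h2 : Continuous fun p : H × H => β p.1 p.2 := by fun_prop
    refine intInt (C := F * M) (h2.comp_aestronglyMeasurable (hs.fm.prodMk hs.um)) ?_
    filter_upwards [hs.ub, hs.fb] with t h3 h4
    have h5 : 0 ≤ F := (norm_nonneg _).trans h4
    exact (hβ _ _).trans (mul_le_mul h4 h3 (norm_nonneg _) h5)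
  have hE : ∀ x, |β (A (u x)) (u x)| ≤ ‖A (u x)‖ * ‖u x‖ := fun x => hβ _ _
  -- the basic inequality
  have hbasic : ∀ a ∈ G, ∀ b ∈ G, 0 < a → a ≤ b →
      2 * c * ∫ t in a..b, ‖u t‖ ^ 2 ≤ ‖A (u a)‖ * ‖u a‖ + ‖A‖ * ‖u b‖ ^ 2 := by
    intro a ha b hb ha0 hab
    have h1 := hGE a ha b hb ha0 hab
    have h2 : ∫ t in a..b, β (f t) (u t) ≤ ∫ t in a..b, -(c * ‖u t‖ ^ 2) := by
      refine intervalIntegral.integral_mono_ae_restrict hab (hβint a b)
        (((hint a b).const_mul c).neg) ?_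
      filter_upwards [ae_restrict_of_ae hneg, ae_restrict_mem measurableSet_Icc] with t h3 h4
      exact h3 (lt_of_lt_of_le ha0 h4.1)
    rw [intervalIntegral.integral_neg, intervalIntegral.integral_const_mul] at h2
    have h3 := (abs_le.1 (hE b)).1
    have h4 := (abs_le.1 (hE a)).2
    have h5 : ‖A (u b)‖ * ‖u b‖ ≤ ‖A‖ * ‖u b‖ ^ 2 := by
      calc ‖A (u b)‖ * ‖u b‖ ≤ (‖A‖ * ‖u b‖) * ‖u b‖ :=
            mul_le_mul_of_nonneg_right (A.le_opNorm _) (norm_nonneg _)
        _ = ‖A‖ * ‖u b‖ ^ 2 := by ring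
    linarith
  -- good points exist in every interval
  have hex : ∀ s r : ℝ, s < r → ∃ x ∈ G, ‖u x‖ ≤ M ∧ s < x ∧ x < r := by
    intro s r hsr
    have h1 : ∀ᵐ x ∂(volume.restrict (Ioo s r)), x ∈ G ∧ ‖u x‖ ≤ M :=
      ae_restrict_of_ae (hG.and hs.ub)
    have h2 : ∀ᵐ x ∂(volume.restrict (Ioo s r)), x ∈ Ioo s r := ae_restrict_mem measurableSet_Ioo
    have h3 : (ae (volume.restrict (Ioo s r))).NeBot := by
      rw [ae_neBot, Ne, Measure.restrict_eq_zero, Real.volume_Ioo]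
      simpa using hsr
    obtain ⟨x, hx1, hx2⟩ := (h1.and h2).exists
    exact ⟨x, hx1.1, hx1.2, hx2.1, hx2.2⟩
  have hi : IntegrableOn (fun t => ‖u t‖ ^ 2) (Ioi 0) := by
    obtain ⟨a, haG, haM, ha0, ha1⟩ := hex 0 1 one_pos
    have h1 : IntegrableOn (fun t => ‖u t‖ ^ 2) (Ioi a) := by
      refine integrableOn_Ioi_of_intervalIntegral_norm_bounded ((2 * ‖A‖ * M ^ 2) / (2 * c)) a
        (b := fun n : ℕ => (n : ℝ) + 1) (fun n => ?_)
        (tendsto_atTop_add_const_right _ _ tendsto_natCast_atTop_atTop) ?_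
      · have := hint a (n + 1)
        rw [intervalIntegrable_iff] at this
        exact this.mono_set (by
          rw [uIoc_of_le]
          have : (0 : ℝ) ≤ n := Nat.cast_nonneg n
          linarith)
      · refine Eventually.of_forall fun n => ?_
        obtain ⟨b, hbG, hbM, hb0, hb1⟩ := hex ((n : ℝ) + 1) ((n : ℝ) + 2) (by linarith)
        have hn : (0 : ℝ) ≤ n := Nat.cast_nonneg n
        have h2 := hbasic a haG b hbG ha0 (by linarith)
        have h3 : ∫ t in a..((n : ℝ) + 1), ‖‖u t‖ ^ 2‖ ≤ ∫ t in a..b, ‖u t‖ ^ 2 := by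
          have h4 : ∫ t in a..((n : ℝ) + 1), ‖‖u t‖ ^ 2‖ = ∫ t in a..((n : ℝ) + 1), ‖u t‖ ^ 2 := by
            refine intervalIntegral.integral_congr fun t _ => ?_
            simp
          rw [h4, ← intervalIntegral.integral_add_adjacent_intervals (hint a (n + 1))
            (hint (n + 1) b)]
          have : 0 ≤ ∫ t in ((n : ℝ) + 1)..b, ‖u t‖ ^ 2 :=
            intervalIntegral.integral_nonneg hb0.le fun t _ => by positivity
          linarith
        have h5 : ‖A (u a)‖ * ‖u a‖ ≤ ‖A‖ * M ^ 2 := by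
          calc ‖A (u a)‖ * ‖u a‖ ≤ (‖A‖ * M) * M :=
                mul_le_mul ((A.le_opNorm _).trans (mul_le_mul_of_nonneg_left haM (norm_nonneg _)))
                  haM (norm_nonneg _) (by positivity)
            _ = ‖A‖ * M ^ 2 := by ring
        have h6 : ‖A‖ * ‖u b‖ ^ 2 ≤ ‖A‖ * M ^ 2 :=
          mul_le_mul_of_nonneg_left (pow_le_pow_left₀ (norm_nonneg _) hbM 2) (norm_nonneg _)
        rw [le_div_iff₀ (by positivity)]
        have h7 : (∫ t in a..((n : ℝ) + 1), ‖‖u t‖ ^ 2‖) * (2 * c)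
            ≤ 2 * c * ∫ t in a..b, ‖u t‖ ^ 2 := by
          rw [mul_comm]
          exact mul_le_mul_of_nonneg_left h3 (by positivity)
        linarith
    have h2 : IntegrableOn (fun t => ‖u t‖ ^ 2) (Ioc 0 a) := by
      have := hint 0 a
      rwa [intervalIntegrable_iff_integrableOn_Ioc_of_le ha0.le] at this
    rw [← Ioc_union_Ioi_eq_Ioi ha0.le]
    exact h2.union h1
  refine ⟨hi, ?_⟩
  filter_upwards [hG] with a ha ha0
  -- let the right end point go to infinity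
  have hN : ∀ᶠ N : ℝ in atTop, 2 * c * ∫ t in a..N, ‖u t‖ ^ 2 ≤ ‖A (u a)‖ * ‖u a‖
      + ‖A‖ * (tail u N - tail u (N + 1)) := by
    filter_upwards [eventually_ge_atTop a] with N hN
    have h0N : 0 ≤ N := ha0.le.trans hN
    have h1 : 2 * c * (∫ t in a..N, ‖u t‖ ^ 2) - ‖A (u a)‖ * ‖u a‖
        ≤ ‖A‖ * (tail u N - tail u (N + 1)) := by
      refine avg hi N _ _ h0N ?_
      filter_upwards [hG] with b hb hbN
      have h2 := hbasic a ha b hb ha0 (hN.trans hbN.1.le)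
      have h3 : ∫ t in a..N, ‖u t‖ ^ 2 ≤ ∫ t in a..b, ‖u t‖ ^ 2 := by
        rw [← intervalIntegral.integral_add_adjacent_intervals (hint a N) (hint N b)]
        have : 0 ≤ ∫ t in N..b, ‖u t‖ ^ 2 :=
          intervalIntegral.integral_nonneg hbN.1.le fun t _ => by positivity
        linarith
      have h4 := mul_le_mul_of_nonneg_left h3 (by positivity : 0 ≤ 2 * c)
      linarith
    linarith
  have hia : IntegrableOn (fun t => ‖u t‖ ^ 2) (Ioi a) := hi.mono_set (Ioi_subset_Ioi ha0.le)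
  have hl : Tendsto (fun N => ∫ t in a..N, ‖u t‖ ^ 2) atTop (𝓝 (tail u a)) :=
    intervalIntegral_tendsto_integral_Ioi a hia tendsto_id
  have htl : Tendsto (fun N => tail u N) atTop (𝓝 0) := by
    have h1 : Tendsto (fun N => tail u a - ∫ t in a..N, ‖u t‖ ^ 2) atTop
        (𝓝 (tail u a - tail u a)) := tendsto_const_nhds.sub hl
    rw [sub_self] at h1
    refine h1.congr' ?_
    filter_upwards [eventually_ge_atTop a] with N hN
    rw [tail_sub hi a N ha0.le hN]
    ring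
  have htl1 : Tendsto (fun N => tail u (N + 1)) atTop (𝓝 0) :=
    htl.comp (tendsto_atTop_add_const_right _ _ tendsto_id)
  have h2 : Tendsto (fun N => ‖A (u a)‖ * ‖u a‖ + ‖A‖ * (tail u N - tail u (N + 1))) atTop
      (𝓝 (‖A (u a)‖ * ‖u a‖ + ‖A‖ * (0 - 0))) :=
    tendsto_const_nhds.add ((htl.sub htl1).const_mul _)
  rw [sub_zero, mul_zero, add_zero] at h2
  exact le_of_tendsto_of_tendsto (hl.const_mul (2 * c)) h2 hN

end Pool.Agent.X19.KE
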