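import Mathlib

/-!
# Degenerate evolution equations `A u' = B (u, u)`: the standing hypotheses and the solutions
-/

set_option autoImplicit false

open Set Filter Topology MeasureTheory RCLike

open scoped InnerProductSpace

namespace Pool.Agent.X19.KE

/-- The hypotheses (H1), (H3), (H4), (H5) on the data `(A, B, V, u⁺)`, where `Q u = B u u` and
`T = Q'(u⁺) = 2 B u⁺`. -/
structure Hyp {𝕜 H : Type*} [RCLike 𝕜] [NormedAddCommGroup H] [InnerProductSpace 𝕜 H]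
    [CompleteSpace H] (A : H →L[𝕜] H) (B : H →L[𝕜] H →L[𝕜] H) (V : Submodule 𝕜 H) (up : H) :
    Prop where
  /-- (H1) `A` is self-adjoint. -/
  A_symm : ∀ x y, ⟪A x, y⟫_𝕜 = ⟪x, A y⟫_𝕜
  /-- (H1) `V` is closed. -/
  V_closed : IsClosed (V : Set H)
  /-- (H1) `V` is a proper subspace. -/
  V_ne : V ≠ ⊤
  /-- (H1) `V` has finite codimension. -/
  V_fin : FiniteDimensional 𝕜 Vᗮ
  /-- (H1) `B` is symmetric. -/
  B_symm : ∀ x y, B x y = B y x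
  /-- (H1) `B` takes its values in `V`. -/
  B_mem : ∀ x y, B x y ∈ V
  /-- (H4) `A` is injective. -/
  A_inj : Function.Injective A
  /-- (H5) the compression of `A` to the orthogonal complement of `V` is invertible. -/
  A_comp : Function.Bijective fun x : Vᗮ => Vᗮ.orthogonalProjectionOnto (A x)
  /-- (H3) `Q u⁺ = 0`. -/
  Q_up : B up up = 0
  /-- (H3) `T` is self-adjoint. -/
  T_symm : ∀ x y, ⟪(2 : 𝕜) • B up x, y⟫_𝕜 = ⟪x, (2 : 𝕜) • B up y⟫_𝕜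
  /-- (H3) the kernel of `T` is the orthogonal complement of `V`. -/
  T_ker : ∀ x, (2 : 𝕜) • B up x = 0 ↔ x ∈ Vᗮ
  /-- (H3) `T ≤ -δ` on `V`. -/
  T_neg : ∃ δ : ℝ, 0 < δ ∧ ∀ x ∈ V, re ⟪(2 : 𝕜) • B up x, x⟫_𝕜 ≤ -(δ * ‖x‖ ^ 2)
  /-- (H3) the compensator of Kawashima. -/
  T_comp : ∃ (K : H →L[𝕜] H) (γ : ℝ), 0 < γ ∧ (∀ x y, ⟪K x, y⟫_𝕜 = -⟪x, K y⟫_𝕜) ∧
    ∀ x, γ * ‖x‖ ^ 2 ≤ re ⟪K (A x) - (2 : 𝕜) • B up x, x⟫_𝕜

/-- `u` is a solution of `A u' = B (u, u)` on `[0, ∞)`: it is strongly measurable and essentially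
bounded, and `A u` has a locally absolutely continuous representative `y` whose derivative is
`B (u, u)` almost everywhere. Only the values of `u` on `[0, ∞)` matter. -/
structure IsSolution {𝕜 H : Type*} [RCLike 𝕜] [NormedAddCommGroup H] [InnerProductSpace 𝕜 H]
    [NormedSpace ℝ H] (A : H →L[𝕜] H) (B : H →L[𝕜] H →L[𝕜] H) (u : ℝ → H) : Prop where
  meas : AEStronglyMeasurable u (volume.restrict (Ici 0))
  bdd : ∃ M : ℝ, ∀ᵐ t, 0 ≤ t → ‖u t‖ ≤ M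
  eq : ∃ y : ℝ → H, (∀ᵐ t, 0 ≤ t → y t = A (u t)) ∧
    (∀ b, 0 < b → AbsolutelyContinuousOnInterval y 0 b) ∧
    ∀ᵐ t, 0 ≤ t → HasDerivAt y (B (u t) (u t)) t

end Pool.Agent.X19.KE
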