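import Mathlib

/-!
# The energy identity for degenerate evolution equations
-/

set_option autoImplicit false

open Set Filter Topology MeasureTheory

namespace Pool.Agent.X19.KE

variable {H : Type*} [NormedAddCommGroup H] [NormedSpace ℝ H]

omit [NormedSpace ℝ H] in
/-- Continuity of translations in `L¹`. -/
theorem translation_tendsto (v : ℝ → H) (hv : Integrable v) :
    Tendsto (fun k : ℝ => ∫ t, ‖v (t + k) - v t‖) (𝓝 0) (𝓝 0) := by
  have : Fact ((1 : ENNReal) ≠ ⊤) := ⟨ENNReal.one_ne_top⟩
  have hv1 : MemLp v 1 volume := memLp_one_iff_integrable.2 hv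
  let V : Lp H 1 (volume : Measure ℝ) := hv1.toLp v
  have hc : Continuous fun k : ℝ => ((DomAddAct.mk k) +ᵥ V) - V := by
    have h1 : Continuous (DomAddAct.mk : ℝ → ℝᵈᵃᵃ) := DomAddAct.mkHomeomorph.continuous
    exact (h1.vadd continuous_const).sub continuous_const
  have h0 : ((DomAddAct.mk (0 : ℝ)) +ᵥ V) - V = 0 := by
    have : DomAddAct.mk (0 : ℝ) = 0 := rfl
    rw [this, zero_vadd, sub_self]
  have h2 : Tendsto (fun k : ℝ => ‖((DomAddAct.mk k) +ᵥ V) - V‖) (𝓝 0) (𝓝 0) := by
    have := (hc.tendsto 0).norm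
    rwa [h0, norm_zero] at this
  refine h2.congr fun k => ?_
  rw [L1.norm_eq_integral_norm]
  refine integral_congr_ae ?_
  have e1 := DomAddAct.vadd_Lp_ae_eq (DomAddAct.mk k) V
  have e2 : (V : ℝ → H) =ᵐ[volume] v := hv1.coeFn_toLp
  have e3 : (fun t => (V : ℝ → H) (k + t)) =ᵐ[volume] fun t => v (k + t) :=
    (measurePreserving_add_left volume k).quasiMeasurePreserving.ae_eq_comp e2
  filter_upwards [Lp.coeFn_sub ((DomAddAct.mk k) +ᵥ V) V, e1, e2, e3] with t h3 h4 h5 h6
  rw [h3, Pi.sub_apply, h4, h5]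
  have : (V : ℝ → H) (k + t) = v (t + k) := by rw [h6, add_comm]
  rw [← this]
  rfl

/-- `y = A u` is an antiderivative of `f` on `(0, ∞)`. -/
structure Sol (A : H →L[ℝ] H) (u f y : ℝ → H) (M F : ℝ) : Prop where
  um : AEStronglyMeasurable u volume
  fm : AEStronglyMeasurable f volume
  ub : ∀ᵐ t, ‖u t‖ ≤ M
  fb : ∀ᵐ t, ‖f t‖ ≤ F
  int : ∀ a b, 0 ≤ a → a ≤ b → y b - y a = ∫ t in a..b, f t
  eq : ∀ᵐ t, 0 < t → y t = A (u t)

variable {A : H →L[ℝ] H} {u f y : ℝ → H} {M F : ℝ}

omit [NormedSpace ℝ H] in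
theorem locInt {v : ℝ → H} {C : ℝ} (hv : AEStronglyMeasurable v volume) (hb : ∀ᵐ t, ‖v t‖ ≤ C) :
    LocallyIntegrable v volume := by
  intro x
  refine ⟨Metric.ball x 1, Metric.ball_mem_nhds x one_pos, ?_⟩
  refine Measure.integrableOn_of_bounded (M := C) ?_ hv ?_
  · exact (measure_ball_lt_top).ne
  · exact ae_restrict_of_ae hb

theorem intInt {v : ℝ → H} {C : ℝ} (hv : AEStronglyMeasurable v volume) (hb : ∀ᵐ t, ‖v t‖ ≤ C)
    (a b : ℝ) : IntervalIntegrable v volume a b :=
  ((locInt hv hb).integrableOn_isCompact isCompact_uIcc).mono_set uIoc_subset_uIcc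
    |> intervalIntegrable_iff.mpr

theorem shift_ae (k : ℝ) {p : ℝ → Prop} (h : ∀ᵐ t, p t) : ∀ᵐ t : ℝ, p (t + k) :=
  (measurePreserving_add_right volume k).quasiMeasurePreserving.ae h

/-- Continuity of translations in `L¹` on bounded intervals. -/
theorem translation_interval (hu : AEStronglyMeasurable u volume) (hb : ∀ᵐ t, ‖u t‖ ≤ M)
    (a b : ℝ) (hab : a ≤ b) (k : ℕ → ℝ) (hk0 : ∀ n, 0 ≤ k n) (hk1 : ∀ n, k n ≤ 1)
    (hk : Tendsto k atTop (𝓝 0)) :
    Tendsto (fun n => ∫ t in a..b, ‖u (t + k n) - u t‖) atTop (𝓝 0) := by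
  let v : ℝ → H := (Ioc a (b + 1)).indicator u
  have hv : Integrable v := by
    refine IntegrableOn.integrable_indicator ?_ measurableSet_Ioc
    have := intInt hu hb a (b + 1)
    rwa [intervalIntegrable_iff_integrableOn_Ioc_of_le (by linarith)] at this
  have h1 := (translation_tendsto v hv).comp hk
  refine squeeze_zero (fun n => ?_) (fun n => ?_) h1
  · exact intervalIntegral.integral_nonneg hab fun t _ => norm_nonneg _
  · rw [intervalIntegral.integral_of_le hab]
    have hvs : Integrable fun t => ‖v (t + k n) - v t‖ := (hv.comp_add_right (k n)).sub hv |>.norm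
    calc ∫ t in Ioc a b, ‖u (t + k n) - u t‖ = ∫ t in Ioc a b, ‖v (t + k n) - v t‖ := by
          refine setIntegral_congr_fun measurableSet_Ioc fun t ht => ?_
          have m1 : t ∈ Ioc a (b + 1) := ⟨ht.1, by linarith [ht.2]⟩
          have m2 : t + k n ∈ Ioc a (b + 1) :=
            ⟨by linarith [ht.1, hk0 n], by linarith [ht.2, hk1 n]⟩
          have e1 : v t = u t := indicator_of_mem m1 u
          have e2 : v (t + k n) = u (t + k n) := indicator_of_mem m2 u
          simp only [e1, e2]
      _ ≤ ∫ t, ‖v (t + k n) - v t‖ :=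
          setIntegral_le_integral hvs (Eventually.of_forall fun t => norm_nonneg _)

/-- The energy identity. -/
theorem energy [CompleteSpace H] (β : H →L[ℝ] H →L[ℝ] ℝ) (hsym : ∀ x y, β (A x) y = β (A y) x)
    (hs : Sol A u f y M F) :
    ∃ G : Set ℝ, (∀ᵐ t, t ∈ G) ∧ ∀ a ∈ G, ∀ b ∈ G, 0 < a → a ≤ b →
      β (A (u b)) (u b) - β (A (u a)) (u a) = 2 * ∫ t in a..b, β (f t) (u t) := by
  let E : ℝ → ℝ := fun t => β (A (u t)) (u t)
  have hM : ∀ᵐ t, ‖u t‖ ≤ M := hs.ub
  have hEm : AEStronglyMeasurable E volume := by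
    have h1 : AEStronglyMeasurable (fun t => (A (u t), u t)) volume :=
      (A.continuous.comp_aestronglyMeasurable hs.um).prodMk hs.um
    have h2 : Continuous fun p : H × H => β p.1 p.2 := by fun_prop
    exact h2.comp_aestronglyMeasurable h1
  have hEb : ∀ᵐ t, ‖E t‖ ≤ ‖β‖ * (‖A‖ * M) * M := by
    filter_upwards [hM] with t ht
    have h0 : 0 ≤ M := (norm_nonneg _).trans ht
    calc ‖E t‖ ≤ ‖β‖ * ‖A (u t)‖ * ‖u t‖ := β.le_opNorm₂ _ _
      _ ≤ ‖β‖ * (‖A‖ * M) * M := by
          have h1 : ‖A (u t)‖ ≤ ‖A‖ * M := (A.le_opNorm _).trans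
            (mul_le_mul_of_nonneg_left ht (norm_nonneg _))
          have h2 : 0 ≤ ‖A‖ * M := by positivity
          gcongr
  have hEl := locInt hEm hEb
  have hEi : ∀ a b, IntervalIntegrable E volume a b := intInt hEm hEb
  refine ⟨{x | HasDerivAt (fun x => ∫ t in (0 : ℝ)..x, E t) (E x) x}, ?_, ?_⟩
  · filter_upwards [LocallyIntegrable.ae_hasDerivAt_integral hEl] with x hx
    exact hx 0
  intro a ha b hb ha0 hab
  set k : ℕ → ℝ := fun n => 1 / ((n : ℝ) + 1) with hk
  have hkpos : ∀ n, 0 < k n := fun n => by positivity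
  have hk1 : ∀ n, k n ≤ 1 := fun n => by
    simp only [hk]
    rw [div_le_one (by positivity)]
    have : (0 : ℝ) ≤ n := Nat.cast_nonneg n
    linarith
  have hk0 : Tendsto k atTop (𝓝 0) := tendsto_one_div_add_atTop_nhds_zero_nat
  have hk0' : Tendsto k atTop (𝓝[≠] 0) :=
    tendsto_nhdsWithin_iff.2 ⟨hk0, Eventually.of_forall fun n => (hkpos n).ne'⟩
  -- the difference quotients of the energy
  have hD : Tendsto (fun n => (k n)⁻¹ * ∫ t in a..b, (E (t + k n) - E t)) atTop
      (𝓝 (E b - E a)) := by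
    have h1 : Tendsto (fun n => (k n)⁻¹ • ((∫ t in (0 : ℝ)..(b + k n), E t) - ∫ t in (0 : ℝ)..b, E t)
        - (k n)⁻¹ • ((∫ t in (0 : ℝ)..(a + k n), E t) - ∫ t in (0 : ℝ)..a, E t)) atTop
        (𝓝 (E b - E a)) :=
      ((HasDerivAt.tendsto_slope_zero hb).comp hk0').sub
        ((HasDerivAt.tendsto_slope_zero ha).comp hk0')
    refine h1.congr fun n => ?_
    have h2 : ∫ t in a..b, (E (t + k n) - E t) =
        (∫ t in (a + k n)..(b + k n), E t) - ∫ t in a..b, E t := by
      rw [intervalIntegral.integral_sub, intervalIntegral.integral_comp_add_right]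
      · have h := (hEi (a + k n) (b + k n)).comp_add_right (k n)
        simpa using h
      · exact hEi _ _
    rw [h2, ← intervalIntegral.integral_interval_sub_left (hEi 0 (b + k n)) (hEi 0 (a + k n)),
      ← intervalIntegral.integral_interval_sub_left (hEi 0 b) (hEi 0 a)]
    simp only [smul_eq_mul]
    ring
  -- the same quotients by the equation
  let q : ℕ → ℝ → H := fun n t => (k n)⁻¹ • (y (t + k n) - y t)
  have hF : 0 ≤ F := by
    obtain ⟨t, ht⟩ := hs.fb.exists
    exact (norm_nonneg _).trans ht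
  have hfi : ∀ a b, IntervalIntegrable f volume a b := intInt hs.fm hs.fb
  have hqb : ∀ n t, 0 < t → ‖q n t‖ ≤ F := by
    intro n t ht
    have h1 : y (t + k n) - y t = ∫ s in t..(t + k n), f s :=
      hs.int t (t + k n) ht.le (by linarith [hkpos n])
    have h2 : ‖∫ s in t..(t + k n), f s‖ ≤ F * |t + k n - t| :=
      intervalIntegral.norm_integral_le_of_norm_le_const_ae (by
        filter_upwards [hs.fb] with s hs' _ using hs')
    change ‖(k n)⁻¹ • (y (t + k n) - y t)‖ ≤ F
    rw [add_sub_cancel_left, abs_of_pos (hkpos n)] at h2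
    rw [norm_smul, norm_inv, Real.norm_eq_abs, abs_of_pos (hkpos n), h1, inv_mul_le_iff₀ (hkpos n)]
    linarith
  have hqlim : ∀ᵐ t, 0 < t → Tendsto (fun n => q n t) atTop (𝓝 (f t)) := by
    filter_upwards [LocallyIntegrable.ae_hasDerivAt_integral (locInt hs.fm hs.fb)] with t ht ht0
    have h1 := (HasDerivAt.tendsto_slope_zero (ht 0)).comp hk0'
    refine h1.congr fun n => ?_
    change (k n)⁻¹ • ((∫ s in (0 : ℝ)..(t + k n), f s) - ∫ s in (0 : ℝ)..t, f s)
      = (k n)⁻¹ • (y (t + k n) - y t)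
    rw [hs.int t (t + k n) ht0.le (by linarith [hkpos n]),
      ← intervalIntegral.integral_interval_sub_left (hfi 0 (t + k n)) (hfi 0 t)]
  have hD2 : ∀ n, (k n)⁻¹ * ∫ t in a..b, (E (t + k n) - E t)
      = ∫ t in a..b, β (q n t) (u (t + k n) + u t) := by
    intro n
    rw [← intervalIntegral.integral_const_mul]
    refine intervalIntegral.integral_congr_ae ?_
    filter_upwards [hs.eq, shift_ae (k n) hs.eq] with t h1 h2 ht
    rw [uIoc_of_le hab] at ht
    have ht0 : 0 < t := lt_trans ha0 ht.1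
    have e1 := h1 ht0
    have e2 := h2 (by linarith [hkpos n])
    change (k n)⁻¹ * (β (A (u (t + k n))) (u (t + k n)) - β (A (u t)) (u t))
      = β ((k n)⁻¹ • (y (t + k n) - y t)) (u (t + k n) + u t)
    rw [e1, e2, map_smul, _root_.smul_apply, smul_eq_mul, map_sub,
      _root_.sub_apply, map_add, map_add, hsym (u t) (u (t + k n))]
    ring
  -- the limit of the right hand side
  have hM0 : 0 ≤ M := by
    obtain ⟨t, ht⟩ := hM.exists
    exact (norm_nonneg _).trans ht
  have hqm : ∀ n, AEStronglyMeasurable (q n) (volume.restrict (uIoc a b)) := by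
    intro n
    have h1 : ∀ t ∈ uIoc a b, q n t = (k n)⁻¹ • ((∫ s in (0 : ℝ)..(t + k n), f s)
        - ∫ s in (0 : ℝ)..t, f s) := by
      intro t ht
      rw [uIoc_of_le hab] at ht
      have ht0 : 0 < t := lt_trans ha0 ht.1
      rw [intervalIntegral.integral_interval_sub_left (hfi 0 (t + k n)) (hfi 0 t)]
      change (k n)⁻¹ • (y (t + k n) - y t) = _
      rw [hs.int t (t + k n) ht0.le (by linarith [hkpos n])]
    have hcont : Continuous fun t => ∫ s in (0 : ℝ)..t, f s :=
      intervalIntegral.continuous_primitive hfi 0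
    have h2 : AEStronglyMeasurable (fun t => (k n)⁻¹ • ((∫ s in (0 : ℝ)..(t + k n), f s)
        - ∫ s in (0 : ℝ)..t, f s)) (volume.restrict (uIoc a b)) := by
      refine Continuous.aestronglyMeasurable ?_
      exact ((hcont.comp (continuous_id.add continuous_const)).sub hcont).const_smul _
    refine h2.congr ?_
    filter_upwards [ae_restrict_mem measurableSet_uIoc] with t ht using (h1 t ht).symm
  have hum : AEStronglyMeasurable u (volume.restrict (uIoc a b)) := hs.um.restrict
  have hβm : ∀ {p r : ℝ → H}, AEStronglyMeasurable p (volume.restrict (uIoc a b)) →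
      AEStronglyMeasurable r (volume.restrict (uIoc a b)) →
      AEStronglyMeasurable (fun t => β (p t) (r t)) (volume.restrict (uIoc a b)) := by
    intro p r hp hr
    have h2 : Continuous fun p : H × H => β p.1 p.2 := by fun_prop
    exact h2.comp_aestronglyMeasurable (hp.prodMk hr)
  have hL1 : Tendsto (fun n => ∫ t in a..b, β (q n t) (u t)) atTop
      (𝓝 (∫ t in a..b, β (f t) (u t))) := by
    refine intervalIntegral.tendsto_integral_filter_of_dominated_convergence
      (fun _ => ‖β‖ * F * M) ?_ ?_ ?_ ?_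
    · exact Eventually.of_forall fun n => hβm (hqm n) hum
    · refine Eventually.of_forall fun n => ?_
      filter_upwards [hM] with t h1 ht
      rw [uIoc_of_le hab] at ht
      refine (β.le_opNorm₂ _ _).trans ?_
      have h2 := hqb n t (lt_trans ha0 ht.1)
      gcongr
    · exact intervalIntegrable_const
    · filter_upwards [hqlim] with t h1 ht
      rw [uIoc_of_le hab] at ht
      have h2 := h1 (lt_trans ha0 ht.1)
      have h3 : Continuous fun p : H => β p (u t) := by fun_prop
      exact (h3.tendsto (f t)).comp h2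
  have hL2 : Tendsto (fun n => ∫ t in a..b, β (q n t) (u (t + k n) - u t)) atTop (𝓝 0) := by
    have h1 := (translation_interval hs.um hs.ub a b hab k (fun n => (hkpos n).le) hk1 hk0).const_mul
      (‖β‖ * F)
    rw [mul_zero] at h1
    refine squeeze_zero_norm (fun n => ?_) h1
    rw [← intervalIntegral.integral_const_mul]
    refine intervalIntegral.norm_integral_le_of_norm_le hab ?_ ?_
    · refine Eventually.of_forall fun t ht => ?_
      refine (β.le_opNorm₂ _ _).trans ?_
      have h2 := hqb n t (lt_trans ha0 ht.1)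
      gcongr
    · have h2 := (intInt hs.um hs.ub (a + k n) (b + k n)).comp_add_right (k n)
      have h3 : IntervalIntegrable (fun t => u (t + k n)) volume a b := by simpa using h2
      exact ((h3.sub (intInt hs.um hs.ub a b)).norm).const_mul _
  have hlim2 : Tendsto (fun n => ∫ t in a..b, β (q n t) (u (t + k n) + u t)) atTop
      (𝓝 (0 + 2 * ∫ t in a..b, β (f t) (u t))) := by
    refine (hL2.add (hL1.const_mul 2)).congr fun n => ?_
    rw [← intervalIntegral.integral_const_mul, ← intervalIntegral.integral_add]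
    · refine intervalIntegral.integral_congr fun t _ => ?_
      simp only [map_sub, map_add]
      ring
    · have h2 := (intInt hs.um hs.ub (a + k n) (b + k n)).comp_add_right (k n)
      have h3 : IntervalIntegrable (fun t => u (t + k n)) volume a b := by simpa using h2
      have h4 := (h3.sub (intInt hs.um hs.ub a b)).norm.const_mul (‖β‖ * F)
      refine h4.mono_fun (hβm (hqm n) ?_) ?_
      · exact ((h3.sub (intInt hs.um hs.ub a b)).aestronglyMeasurable_restrict_uIoc)
      · filter_upwards [ae_restrict_mem measurableSet_uIoc] with t ht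
        rw [uIoc_of_le hab] at ht
        have h2 := hqb n t (lt_trans ha0 ht.1)
        refine (β.le_opNorm₂ _ _).trans ?_
        rw [Real.norm_eq_abs, abs_of_nonneg (by positivity)]
        gcongr
    · have h4 := ((intInt hs.um hs.ub a b).norm.const_mul (‖β‖ * F)).const_mul 2
      refine h4.mono_fun ((hβm (hqm n) hum).const_mul 2) ?_
      filter_upwards [ae_restrict_mem measurableSet_uIoc] with t ht
      rw [uIoc_of_le hab] at ht
      have h2 := hqb n t (lt_trans ha0 ht.1)
      rw [norm_mul, norm_mul, norm_mul, norm_norm]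
      have h5 := β.le_opNorm₂ (q n t) (u t)
      have h6 : ‖β‖ * ‖q n t‖ * ‖u t‖ ≤ ‖‖β‖ * F‖ * ‖u t‖ := by
        rw [Real.norm_eq_abs (‖β‖ * F), abs_of_nonneg (by positivity)]
        gcongr
      exact mul_le_mul_of_nonneg_left (h5.trans h6) (norm_nonneg _)
  rw [zero_add] at hlim2
  have hD3 : Tendsto (fun n => ∫ t in a..b, β (q n t) (u (t + k n) + u t)) atTop
      (𝓝 (E b - E a)) := hD.congr hD2
  exact tendsto_nhds_unique hD3 hlim2

end Pool.Agent.X19.KE
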