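import Pool.Agent.X19.KE.Decay

/-!
# Pointwise decay
-/

set_option autoImplicit false

open Set Filter Topology MeasureTheory

namespace Pool.Agent.X19.KE

set_option linter.unusedSectionVars false

variable {H : Type*} [NormedAddCommGroup H] [NormedSpace ℝ H]

variable {A : H →L[ℝ] H} {u f y : ℝ → H} {M F : ℝ}

theorem shift_m {v : ℝ → H} (hv : AEStronglyMeasurable v volume) (h : ℝ) :
    AEStronglyMeasurable (fun t => v (t + h)) volume :=
  hv.comp_quasiMeasurePreserving (measurePreserving_add_right volume h).quasiMeasurePreserving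

theorem Sol.diff (hs : Sol A u f y M F) (h : ℝ) (hh : 0 ≤ h) :
    Sol A (fun t => u (t + h) - u t) (fun t => f (t + h) - f t) (fun t => y (t + h) - y t)
      (2 * M) (2 * F) := by
  refine ⟨(shift_m hs.um h).sub hs.um, (shift_m hs.fm h).sub hs.fm, ?_, ?_, ?_, ?_⟩
  · filter_upwards [hs.ub, shift_ae h hs.ub] with t h1 h2
    exact (norm_sub_le _ _).trans (by linarith)
  · filter_upwards [hs.fb, shift_ae h hs.fb] with t h1 h2
    exact (norm_sub_le _ _).trans (by linarith)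
  · intro a b ha hab
    have h1 := hs.int (a + h) (b + h) (by linarith) (by linarith)
    have h2 := hs.int a b ha hab
    have hfi : ∀ a b, IntervalIntegrable f volume a b := intInt hs.fm hs.fb
    have h3 := (hfi (a + h) (b + h)).comp_add_right h
    rw [intervalIntegral.integral_sub (by simpa using h3) (hfi a b),
      intervalIntegral.integral_comp_add_right, ← h1, ← h2]
    abel
  · filter_upwards [hs.eq, shift_ae h hs.eq] with t h1 h2 ht
    rw [map_sub, h1 ht, h2 (by linarith)]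

theorem tail_shift (s h : ℝ) : ∫ t in Ioi s, ‖u (t + h)‖ ^ 2 = tail u (s + h) := by
  have h1 := (measurePreserving_add_right (volume : Measure ℝ) h).setIntegral_preimage_emb
    (measurableEmbedding_addRight h) (fun t => ‖u t‖ ^ 2) (Ioi (s + h))
  have h2 : (fun x : ℝ => x + h) ⁻¹' Ioi (s + h) = Ioi s := by
    ext x
    simp
  rw [h2] at h1
  exact h1

theorem int_shift (hi : IntegrableOn (fun t => ‖u t‖ ^ 2) (Ioi 0)) (s h : ℝ) (hs : 0 ≤ s)
    (hh : 0 ≤ h) : IntegrableOn (fun t => ‖u (t + h)‖ ^ 2) (Ioi s) := by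
  have h1 := (measurePreserving_add_right (volume : Measure ℝ) h).integrableOn_comp_preimage
    (measurableEmbedding_addRight h) (f := fun t => ‖u t‖ ^ 2) (s := Ioi (s + h))
  have h2 : (fun x : ℝ => x + h) ⁻¹' Ioi (s + h) = Ioi s := by
    ext x
    simp
  rw [h2] at h1
  exact h1.2 (hi.mono_set (Ioi_subset_Ioi (by linarith)))

theorem tail_diff (hi : IntegrableOn (fun t => ‖u t‖ ^ 2) (Ioi 0))
    (s h : ℝ) (hs0 : 0 ≤ s) (hh : 0 ≤ h) :
    tail (fun t => u (t + h) - u t) s ≤ 4 * tail u s := by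
  have h1 := int_shift hi s h hs0 hh
  have h2 : IntegrableOn (fun t => ‖u t‖ ^ 2) (Ioi s) := hi.mono_set (Ioi_subset_Ioi hs0)
  have h3 : ∀ t, ‖u (t + h) - u t‖ ^ 2 ≤ 2 * ‖u (t + h)‖ ^ 2 + 2 * ‖u t‖ ^ 2 := by
    intro t
    have h4 := norm_sub_le (u (t + h)) (u t)
    have h5 : ‖u (t + h) - u t‖ ^ 2 ≤ (‖u (t + h)‖ + ‖u t‖) ^ 2 :=
      pow_le_pow_left₀ (norm_nonneg _) h4 2
    nlinarith [sq_nonneg (‖u (t + h)‖ - ‖u t‖)]
  calc tail (fun t => u (t + h) - u t) s
      ≤ ∫ t in Ioi s, (2 * ‖u (t + h)‖ ^ 2 + 2 * ‖u t‖ ^ 2) := by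
        refine integral_mono_of_nonneg (Eventually.of_forall fun t => by positivity)
          ((h1.const_mul 2).add (h2.const_mul 2)) (Eventually.of_forall h3)
    _ = 2 * tail u (s + h) + 2 * tail u s := by
        rw [integral_add (h1.const_mul 2) (h2.const_mul 2), integral_const_mul,
          integral_const_mul, tail_shift]
        rfl
    _ ≤ 4 * tail u s := by
        have := tail_anti hi s (s + h) hs0 (by linarith)
        linarith

/-- The Cauchy–Schwarz inequality on an interval. -/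
theorem cs_interval {g : ℝ → ℝ} {a b : ℝ} (hab : a < b) (hg : IntervalIntegrable g volume a b)
    (hg2 : IntervalIntegrable (fun t => g t ^ 2) volume a b) :
    (∫ t in a..b, g t) ^ 2 ≤ (b - a) * ∫ t in a..b, g t ^ 2 := by
  set m := (∫ t in a..b, g t) / (b - a) with hm
  have hba : 0 < b - a := by linarith
  have h0 : 0 ≤ ∫ t in a..b, (g t - m) ^ 2 :=
    intervalIntegral.integral_nonneg hab.le fun t _ => sq_nonneg _
  have h1 : ∫ t in a..b, (g t - m) ^ 2 = (∫ t in a..b, g t ^ 2) - 2 * m * (∫ t in a..b, g t)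
      + m ^ 2 * (b - a) := by
    have e : ∀ t, (g t - m) ^ 2 = (g t ^ 2 - (2 * m) * g t) + m ^ 2 := fun t => by ring
    simp_rw [e]
    rw [intervalIntegral.integral_add (hg2.sub (hg.const_mul _)) intervalIntegrable_const,
      intervalIntegral.integral_sub hg2 (hg.const_mul _), intervalIntegral.integral_const_mul,
      intervalIntegral.integral_const, smul_eq_mul]
    ring
  have h2 : (∫ t in a..b, g t) = m * (b - a) := by
    rw [hm]
    field_simp
  rw [h1, h2] at h0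
  rw [h2]
  nlinarith

/-- Consecutive dyadic averages. -/
theorem step (hu : AEStronglyMeasurable u volume) (hb : ∀ᵐ t, ‖u t‖ ≤ M)
    (τ k : ℝ) (hk : 0 < k)
    (hi : IntegrableOn (fun t => ‖u (t + k) - u t‖ ^ 2) (Ioi 0)) (hτ : 0 ≤ τ) :
    ‖((2 * k)⁻¹ • ∫ t in τ..(τ + 2 * k), u t) - k⁻¹ • ∫ t in τ..(τ + k), u t‖ ^ 2
      ≤ (4 * k)⁻¹ * tail (fun t => u (t + k) - u t) τ := by
  have hui : ∀ a b, IntervalIntegrable u volume a b := intInt hu hb
  have hsh : IntervalIntegrable (fun t => u (t + k)) volume τ (τ + k) := by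
    have := (hui (τ + k) (τ + k + k)).comp_add_right k
    simpa using this
  have e1 : (∫ t in τ..(τ + 2 * k), u t) = (∫ t in τ..(τ + k), u t)
      + ∫ t in τ..(τ + k), u (t + k) := by
    rw [intervalIntegral.integral_comp_add_right,
      show τ + k + k = τ + 2 * k by ring, intervalIntegral.integral_add_adjacent_intervals
      (hui _ _) (hui _ _)]
  have e2 : ((2 * k)⁻¹ • ∫ t in τ..(τ + 2 * k), u t) - k⁻¹ • ∫ t in τ..(τ + k), u t
      = (2 * k)⁻¹ • ∫ t in τ..(τ + k), (u (t + k) - u t) := by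
    rw [e1, intervalIntegral.integral_sub hsh (hui _ _), smul_add, smul_sub]
    have : k⁻¹ = (2 * k)⁻¹ + (2 * k)⁻¹ := by
      field_simp
      norm_num
    rw [this, add_smul]
    abel
  have hd := hsh.sub (hui τ (τ + k))
  have hd2 : IntervalIntegrable (fun t => ‖u (t + k) - u t‖ ^ 2) volume τ (τ + k) := by
    rw [intervalIntegrable_iff_integrableOn_Ioc_of_le (by linarith)]
    exact hi.mono_set fun t ht => lt_of_le_of_lt hτ ht.1
  have h1 : ‖∫ t in τ..(τ + k), (u (t + k) - u t)‖ ≤ ∫ t in τ..(τ + k), ‖u (t + k) - u t‖ :=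
    intervalIntegral.norm_integral_le_integral_norm (by linarith)
  have h2 := cs_interval (by linarith : τ < τ + k) hd.norm hd2
  have h3 : ∫ t in τ..(τ + k), ‖u (t + k) - u t‖ ^ 2 ≤ tail (fun t => u (t + k) - u t) τ := by
    have := tail_sub hi τ (τ + k) hτ (by linarith)
    have h4 := tail_nonneg (fun t => u (t + k) - u t) (τ + k)
    linarith
  have h5 : ‖∫ t in τ..(τ + k), (u (t + k) - u t)‖ ^ 2
      ≤ k * tail (fun t => u (t + k) - u t) τ := by
    refine (pow_le_pow_left₀ (norm_nonneg _) h1 2).trans (h2.trans ?_)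
    rw [add_sub_cancel_left]
    exact mul_le_mul_of_nonneg_left h3 hk.le
  rw [e2, norm_smul, mul_pow, norm_inv, Real.norm_eq_abs, abs_of_pos (by positivity)]
  calc (2 * k)⁻¹ ^ 2 * ‖∫ t in τ..(τ + k), (u (t + k) - u t)‖ ^ 2
      ≤ (2 * k)⁻¹ ^ 2 * (k * tail (fun t => u (t + k) - u t) τ) :=
        mul_le_mul_of_nonneg_left h5 (by positivity)
    _ = (4 * k)⁻¹ * tail (fun t => u (t + k) - u t) τ := by
        have : (2 * k)⁻¹ ^ 2 * k = (4 * k)⁻¹ := by
          field_simp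
          norm_num
        rw [← mul_assoc, this]

/-- Exponential decay of a quantity that contracts at every unit step. -/
theorem exp_of_step (φ : ℝ → ℝ) (C ρ : ℝ) (hC : 0 ≤ C) (hρ0 : 0 < ρ) (hρ1 : ρ < 1)
    (hanti : ∀ a b, 0 ≤ a → a ≤ b → φ b ≤ φ a) (h0 : φ 0 ≤ C)
    (hstep : ∀ s, 0 ≤ s → φ (s + 1) ≤ ρ * φ s) (s : ℝ) (hs : 0 ≤ s) :
    φ s ≤ C / ρ * Real.exp (-(-Real.log ρ * s)) := by
  have hφ0 : ∀ n : ℕ, φ n ≤ ρ ^ n * C := by
    intro n
    induction n with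
    | zero => simpa using h0
    | succ n ih =>
      push_cast
      calc φ ((n : ℝ) + 1) ≤ ρ * φ n := hstep n (Nat.cast_nonneg n)
        _ ≤ ρ * (ρ ^ n * C) := mul_le_mul_of_nonneg_left ih hρ0.le
        _ = ρ ^ (n + 1) * C := by ring
  have h1 := hφ0 ⌊s⌋₊
  have h2 : φ s ≤ φ (⌊s⌋₊ : ℝ) := hanti _ _ (Nat.cast_nonneg _) (Nat.floor_le hs)
  have hlog : Real.log ρ < 0 := Real.log_neg hρ0 hρ1
  have h3 : ρ ^ ⌊s⌋₊ ≤ ρ⁻¹ * Real.exp (-(-Real.log ρ * s)) := by
    have e1 : ρ ^ ⌊s⌋₊ = Real.exp (⌊s⌋₊ * Real.log ρ) := by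
      rw [← Real.log_pow, Real.exp_log (by positivity)]
    have e2 : ρ⁻¹ = Real.exp (-Real.log ρ) := by
      rw [Real.exp_neg, Real.exp_log hρ0]
    rw [e1, e2, ← Real.exp_add, Real.exp_le_exp]
    have h4 : s < ⌊s⌋₊ + 1 := Nat.lt_floor_add_one s
    nlinarith
  calc φ s ≤ ρ ^ ⌊s⌋₊ * C := h2.trans h1
    _ ≤ (ρ⁻¹ * Real.exp (-(-Real.log ρ * s))) * C := mul_le_mul_of_nonneg_right h3 hC
    _ = C / ρ * Real.exp (-(-Real.log ρ * s)) := by
        rw [div_eq_mul_inv]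
        ring

variable [CompleteSpace H]

/-- The tail contracts. -/
theorem tail_step (β : H →L[ℝ] H →L[ℝ] ℝ) (hsym : ∀ x y, β (A x) y = β (A y) x)
    (hβ : ∀ x y, |β x y| ≤ ‖x‖ * ‖y‖) (hs : Sol A u f y M F) (c : ℝ) (hc : 0 < c)
    (hneg : ∀ᵐ t, 0 < t → β (f t) (u t) ≤ -(c * ‖u t‖ ^ 2)) :
    (∀ s, 0 ≤ s → tail u (s + 1) ≤ (‖A‖ + 1) / (2 * c + ‖A‖ + 1) * tail u s) ∧
      tail u 0 ≤ (‖A‖ / (2 * c) + 1) * M ^ 2 := by
  obtain ⟨hi, hd⟩ := decay β hsym hβ hs c hc hneg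
  have hA : 0 ≤ ‖A‖ := norm_nonneg _
  have key : ∀ s, 0 ≤ s → 2 * c * tail u (s + 1) ≤ ‖A‖ * (tail u s - tail u (s + 1)) := by
    intro s hs0
    refine avg hi s _ _ hs0 ?_
    filter_upwards [hd] with a ha has
    have ha0 : 0 < a := lt_of_le_of_lt hs0 has.1
    have h1 := ha ha0
    have h2 := tail_anti hi a (s + 1) ha0.le has.2
    have h3 := A.le_opNorm (u a)
    have h4 : ‖A (u a)‖ * ‖u a‖ ≤ ‖A‖ * ‖u a‖ ^ 2 := by
      calc ‖A (u a)‖ * ‖u a‖ ≤ (‖A‖ * ‖u a‖) * ‖u a‖ :=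
            mul_le_mul_of_nonneg_right h3 (norm_nonneg _)
        _ = ‖A‖ * ‖u a‖ ^ 2 := by ring
    nlinarith
  refine ⟨fun s hs0 => ?_, ?_⟩
  · have h1 := key s hs0
    have h2 := tail_anti hi s (s + 1) hs0 (by linarith)
    rw [div_mul_eq_mul_div, le_div_iff₀ (by positivity)]
    nlinarith
  · have h1 := key 0 le_rfl
    rw [zero_add] at h1
    have h2 : tail u 0 - tail u 1 ≤ M ^ 2 := by
      rw [← tail_sub hi 0 1 le_rfl zero_le_one]
      have h3 : ∫ t in (0 : ℝ)..1, ‖u t‖ ^ 2 ≤ ∫ _ in (0 : ℝ)..1, M ^ 2 := by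
        refine intervalIntegral.integral_mono_ae_restrict zero_le_one
          (sq_intInt hs.um hs.ub 0 1) intervalIntegrable_const ?_
        filter_upwards [ae_restrict_of_ae hs.ub] with t ht
        exact pow_le_pow_left₀ (norm_nonneg _) ht 2
      simpa using h3
    have h3 : tail u 1 ≤ ‖A‖ / (2 * c) * M ^ 2 := by
      rw [div_mul_eq_mul_div, le_div_iff₀ (by positivity)]
      nlinarith
    linarith

/-- The norm of `y (a + h) - y a`. -/
theorem y_lip (hs : Sol A u f y M F) (a h : ℝ) (ha : 0 ≤ a) (hh : 0 ≤ h) :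
    ‖y (a + h) - y a‖ ≤ F * h := by
  rw [hs.int a (a + h) ha (by linarith)]
  have h2 : ‖∫ s in a..(a + h), f s‖ ≤ F * |a + h - a| :=
    intervalIntegral.norm_integral_le_of_norm_le_const_ae (by
      filter_upwards [hs.fb] with s hs' _ using hs')
  rwa [add_sub_cancel_left, abs_of_nonneg hh] at h2

/-- Smallness of the tails of the differences. -/
theorem diff_small (β : H →L[ℝ] H →L[ℝ] ℝ) (hsym : ∀ x y, β (A x) y = β (A y) x)
    (hβ : ∀ x y, |β x y| ≤ ‖x‖ * ‖y‖) (hs : Sol A u f y M F) (c : ℝ) (hc : 0 < c)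
    (hi : IntegrableOn (fun t => ‖u t‖ ^ 2) (Ioi 0)) (h : ℝ) (hh : 0 < h)
    (hneg : ∀ᵐ t, 0 < t → β (f (t + h) - f t) (u (t + h) - u t)
      ≤ -(c * ‖u (t + h) - u t‖ ^ 2)) :
    IntegrableOn (fun t => ‖u (t + h) - u t‖ ^ 2) (Ioi 0) ∧
    ∀ s, 0 ≤ s → tail (fun t => u (t + h) - u t) (s + 2) ^ 4
      ≤ (F * h / (2 * c)) ^ 6 * (4 * tail u s) := by
  have hd := hs.diff h hh.le
  obtain ⟨hi2, hdec⟩ := decay β hsym hβ hd c hc hneg
  have hF : 0 ≤ F := by
    obtain ⟨t, ht⟩ := hs.fb.exists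
    exact (norm_nonneg _).trans ht
  refine ⟨hi2, ?_⟩
  have key : ∀ s, 0 ≤ s → (tail (fun t => u (t + h) - u t) (s + 1)) ^ 2
      ≤ (F * h / (2 * c)) ^ 2 * tail (fun t => u (t + h) - u t) s := by
    intro s hs0
    have h1 : (2 * c * tail (fun t => u (t + h) - u t) (s + 1)) ^ 2
        ≤ (F * h) ^ 2 * (tail (fun t => u (t + h) - u t) s
          - tail (fun t => u (t + h) - u t) (s + 1)) := by
      refine avg hi2 s _ _ hs0 ?_
      filter_upwards [hdec, hs.eq, shift_ae h hs.eq] with a ha he1 he2 has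
      have ha0 : 0 < a := lt_of_le_of_lt hs0 has.1
      have h2 := ha ha0
      have h3 := tail_anti hi2 a (s + 1) ha0.le has.2
      have h4 : ‖A (u (a + h) - u a)‖ ≤ F * h := by
        rw [map_sub, ← he1 ha0, ← he2 (by linarith)]
        exact y_lip hs a h ha0.le hh.le
      have h5 : 2 * c * tail (fun t => u (t + h) - u t) (s + 1)
          ≤ F * h * ‖u (a + h) - u a‖ := by
        have h6 := mul_le_mul_of_nonneg_right h4 (norm_nonneg (u (a + h) - u a))
        have h7 := mul_le_mul_of_nonneg_left h3 (by positivity : 0 ≤ 2 * c)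
        linarith
      have h8 : 0 ≤ 2 * c * tail (fun t => u (t + h) - u t) (s + 1) :=
        mul_nonneg (by positivity) (tail_nonneg _ _)
      calc (2 * c * tail (fun t => u (t + h) - u t) (s + 1)) ^ 2
          ≤ (F * h * ‖u (a + h) - u a‖) ^ 2 := pow_le_pow_left₀ h8 h5 2
        _ = (F * h) ^ 2 * ‖u (a + h) - u a‖ ^ 2 := by ring
    have h2 := tail_nonneg (fun t => u (t + h) - u t) (s + 1)
    have h3 : (2 * c * tail (fun t => u (t + h) - u t) (s + 1)) ^ 2
        ≤ (F * h) ^ 2 * tail (fun t => u (t + h) - u t) s := by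
      have : 0 ≤ (F * h) ^ 2 * tail (fun t => u (t + h) - u t) (s + 1) := by positivity
      nlinarith
    rw [div_pow, div_mul_eq_mul_div, le_div_iff₀ (by positivity)]
    nlinarith
  intro s hs0
  have h1 := key (s + 1) (by linarith)
  have h2 := key s hs0
  have h3 := tail_diff hi s h hs0 hh.le
  rw [show s + 1 + 1 = s + 2 by ring] at h1
  have h4 := tail_nonneg (fun t => u (t + h) - u t) (s + 2)
  calc tail (fun t => u (t + h) - u t) (s + 2) ^ 4
      = (tail (fun t => u (t + h) - u t) (s + 2) ^ 2) ^ 2 := by ring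
    _ ≤ ((F * h / (2 * c)) ^ 2 * tail (fun t => u (t + h) - u t) (s + 1)) ^ 2 :=
        pow_le_pow_left₀ (by positivity) h1 2
    _ = (F * h / (2 * c)) ^ 4 * tail (fun t => u (t + h) - u t) (s + 1) ^ 2 := by ring
    _ ≤ (F * h / (2 * c)) ^ 4 * ((F * h / (2 * c)) ^ 2
          * tail (fun t => u (t + h) - u t) s) :=
        mul_le_mul_of_nonneg_left h2 (by positivity)
    _ = (F * h / (2 * c)) ^ 6 * tail (fun t => u (t + h) - u t) s := by ring
    _ ≤ (F * h / (2 * c)) ^ 6 * (4 * tail u s) :=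
        mul_le_mul_of_nonneg_left h3 (by positivity)

/-- Uniform pointwise exponential decay. -/
theorem pointwise (A : H →L[ℝ] H) (β : H →L[ℝ] H →L[ℝ] ℝ)
    (hsym : ∀ x y, β (A x) y = β (A y) x)
    (hβ : ∀ x y, |β x y| ≤ ‖x‖ * ‖y‖) (c : ℝ) (hc : 0 < c) (M F : ℝ) (hM : 0 ≤ M) :
    ∃ C b : ℝ, 0 < C ∧ 0 < b ∧ ∀ u f y : ℝ → H, Sol A u f y M F →
      (∀ᵐ t, 0 < t → β (f t) (u t) ≤ -(c * ‖u t‖ ^ 2)) →
      (∀ h, 0 < h → h ≤ 1 → ∀ᵐ t, 0 < t → β (f (t + h) - f t) (u (t + h) - u t)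
        ≤ -(c * ‖u (t + h) - u t‖ ^ 2)) →
      ∀ᵐ t, 0 < t → ‖u t‖ ≤ C * Real.exp (-(b * t)) := by
  set ρ : ℝ := (‖A‖ + 1) / (2 * c + ‖A‖ + 1) with hρ
  have hA : 0 ≤ ‖A‖ := norm_nonneg _
  have hρ0 : 0 < ρ := by positivity
  have hρ1 : ρ < 1 := by
    rw [hρ, div_lt_one (by positivity)]
    linarith
  set l : ℝ := -Real.log ρ with hl
  have hl0 : 0 < l := by
    have := Real.log_neg hρ0 hρ1
    linarith
  set C₁ : ℝ := ((‖A‖ / (2 * c) + 1) * M ^ 2) / ρ with hC₁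
  have hC₁0 : 0 ≤ C₁ := by positivity
  set D : ℝ := 1 + (F / (2 * c)) ^ 6 / 64 * (C₁ * Real.exp (2 * l)) with hD
  have hD1 : 1 ≤ D := by
    have : 0 ≤ (F / (2 * c)) ^ 6 / 64 * (C₁ * Real.exp (2 * l)) := by positivity
    linarith
  set r : ℝ := Real.sqrt (Real.sqrt (1 / 2)) with hr
  have hr4 : r ^ 4 = 1 / 2 := by
    have : r ^ 4 = (r ^ 2) ^ 2 := by ring
    rw [this, hr, Real.sq_sqrt (Real.sqrt_nonneg _), Real.sq_sqrt (by norm_num)]
  have hr0 : 0 ≤ r := Real.sqrt_nonneg _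
  have hr1 : r < 1 := by
    by_contra hcon
    have := one_le_pow₀ (not_lt.1 hcon) (n := 4)
    rw [hr4] at this
    norm_num at this
  refine ⟨1 + C₁ + D * r / (1 - r) + M * Real.exp (l / 4), l / 8, ?_, by positivity, ?_⟩
  · have : 0 ≤ D * r / (1 - r) := div_nonneg (by positivity) (by linarith)
    positivity
  intro u f y hs hneg hneg2
  obtain ⟨hstep, h0⟩ := tail_step β hsym hβ hs c hc hneg
  obtain ⟨hi, -⟩ := decay β hsym hβ hs c hc hneg
  have hexp : ∀ s, 0 ≤ s → tail u s ≤ C₁ * Real.exp (-(l * s)) := fun s hs0 =>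
    exp_of_step (tail u) _ ρ (by positivity) hρ0 hρ1 (fun a b ha hab => tail_anti hi a b ha hab)
      h0 hstep s hs0
  have hu : AEStronglyMeasurable u volume := hs.um
  have hui : ∀ a b, IntervalIntegrable u volume a b := intInt hs.um hs.ub
  filter_upwards [hs.ub, LocallyIntegrable.ae_hasDerivAt_integral (locInt hs.um hs.ub)]
    with τ hτM hτd hτ0
  rcases lt_or_ge τ 2 with hτ2 | hτ2
  · have h1 : (1 : ℝ) ≤ Real.exp (l / 4) * Real.exp (-(l / 8 * τ)) := by
      rw [← Real.exp_add]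
      exact Real.one_le_exp (by nlinarith)
    have h2 : 0 ≤ D * r / (1 - r) := div_nonneg (by positivity) (by linarith)
    have h3 : 0 ≤ (1 + C₁ + D * r / (1 - r)) * Real.exp (-(l / 8 * τ)) := by positivity
    calc ‖u τ‖ ≤ M := hτM
      _ ≤ M * (Real.exp (l / 4) * Real.exp (-(l / 8 * τ))) := le_mul_of_one_le_right hM h1
      _ ≤ (1 + C₁ + D * r / (1 - r) + M * Real.exp (l / 4)) * Real.exp (-(l / 8 * τ)) := by
          linarith
  -- dyadic averages
  let v : ℕ → H := fun n => (2 : ℝ) ^ n • ∫ t in τ..(τ + (1 / 2) ^ n), u t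
  have hv : ∀ n, dist (v n) (v (n + 1)) ≤ (D * Real.exp (-(l / 8 * τ)) * r) * r ^ n := by
    intro n
    set k : ℝ := (1 / 2) ^ (n + 1) with hk
    have hk0 : 0 < k := by positivity
    have hk1 : k ≤ 1 := pow_le_one₀ (by norm_num) (by norm_num)
    obtain ⟨hik, hsm⟩ := diff_small β hsym hβ hs c hc hi k hk0 (hneg2 k hk0 hk1)
    have e1 : (2 : ℝ) ^ n = (2 * k)⁻¹ := by
      rw [hk, pow_succ]
      have : (2 : ℝ) * ((1 / 2) ^ n * (1 / 2)) = (1 / 2) ^ n := by ring
      rw [this, one_div, inv_pow, inv_inv]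
    have e2 : (1 / 2 : ℝ) ^ n = 2 * k := by
      rw [hk, pow_succ]
      ring
    have e3 : (2 : ℝ) ^ (n + 1) = k⁻¹ := by
      rw [hk, one_div, inv_pow, inv_inv]
    have h1 := step hs.um hs.ub τ k hk0 hik hτ0.le
    have h2 : dist (v n) (v (n + 1)) ^ 2
        ≤ (4 * k)⁻¹ * tail (fun t => u (t + k) - u t) τ := by
      rw [dist_eq_norm]
      change ‖((2 : ℝ) ^ n • ∫ t in τ..(τ + (1 / 2) ^ n), u t)
        - (2 : ℝ) ^ (n + 1) • ∫ t in τ..(τ + (1 / 2) ^ (n + 1)), u t‖ ^ 2 ≤ _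
      rw [e1, e2, e3]
      exact h1
    have h3 := hsm (τ - 2) (by linarith)
    rw [sub_add_cancel] at h3
    have h4 := hexp (τ - 2) (by linarith)
    have h5 := tail_nonneg (fun t => u (t + k) - u t) τ
    have h6 : dist (v n) (v (n + 1)) ^ 8
        ≤ (D * Real.exp (-(l / 8 * τ)) * r * r ^ n) ^ 8 := by
      calc dist (v n) (v (n + 1)) ^ 8 = (dist (v n) (v (n + 1)) ^ 2) ^ 4 := by ring
        _ ≤ ((4 * k)⁻¹ * tail (fun t => u (t + k) - u t) τ) ^ 4 :=
            pow_le_pow_left₀ (by positivity) h2 4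
        _ = (4 * k)⁻¹ ^ 4 * tail (fun t => u (t + k) - u t) τ ^ 4 := by ring
        _ ≤ (4 * k)⁻¹ ^ 4 * ((F * k / (2 * c)) ^ 6 * (4 * tail u (τ - 2))) :=
            mul_le_mul_of_nonneg_left h3 (by positivity)
        _ = (F / (2 * c)) ^ 6 / 64 * tail u (τ - 2) * k ^ 2 := by
            field_simp
            ring
        _ ≤ (F / (2 * c)) ^ 6 / 64 * (C₁ * Real.exp (-(l * (τ - 2)))) * k ^ 2 := by
            gcongr
        _ = ((F / (2 * c)) ^ 6 / 64 * (C₁ * Real.exp (2 * l))) * Real.exp (-(l / 8 * τ)) ^ 8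
              * k ^ 2 := by
            have : Real.exp (-(l * (τ - 2))) = Real.exp (2 * l) * Real.exp (-(l / 8 * τ)) ^ 8 := by
              rw [← Real.exp_nat_mul, ← Real.exp_add]
              congr 1
              push_cast
              ring
            rw [this]
            ring
        _ ≤ D ^ 8 * Real.exp (-(l / 8 * τ)) ^ 8 * k ^ 2 := by
            have h7 : D ≤ D ^ 8 := le_self_pow₀ hD1 (by norm_num)
            gcongr
            linarith
        _ = (D * Real.exp (-(l / 8 * τ)) * r * r ^ n) ^ 8 := by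
            have : k ^ 2 = (r * r ^ n) ^ 8 := by
              have h8 : (r * r ^ n) ^ 8 = (r ^ 4) ^ (2 * (n + 1)) := by
                rw [← pow_succ', ← pow_mul, ← pow_mul]
                congr 1
                ring
              rw [h8, hr4, hk, ← pow_mul]
              congr 1
              ring
            rw [this]
            ring
    exact le_of_pow_le_pow_left₀ (by norm_num) (by positivity) h6
  have hvlim : Tendsto v atTop (𝓝 (u τ)) := by
    have hk0 : Tendsto (fun n : ℕ => (1 / 2 : ℝ) ^ n) atTop (𝓝 0) :=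
      tendsto_pow_atTop_nhds_zero_of_lt_one (by norm_num) (by norm_num)
    have hk0' : Tendsto (fun n : ℕ => (1 / 2 : ℝ) ^ n) atTop (𝓝[≠] 0) :=
      tendsto_nhdsWithin_iff.2 ⟨hk0, Eventually.of_forall fun n => by
        have : (0 : ℝ) < (1 / 2) ^ n := by positivity
        exact this.ne'⟩
    refine ((HasDerivAt.tendsto_slope_zero (hτd 0)).comp hk0').congr fun n => ?_
    change ((1 / 2 : ℝ) ^ n)⁻¹ • ((∫ s in (0 : ℝ)..(τ + (1 / 2) ^ n), u s)
      - ∫ s in (0 : ℝ)..τ, u s) = (2 : ℝ) ^ n • ∫ t in τ..(τ + (1 / 2) ^ n), u t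
    rw [intervalIntegral.integral_interval_sub_left (hui 0 _) (hui 0 τ), one_div, inv_pow, inv_inv]
  have h1 := dist_le_of_le_geometric_of_tendsto₀ r _ hr1 hv hvlim
  have h2 : ‖v 0‖ ≤ (1 + C₁) * Real.exp (-(l / 8 * τ)) := by
    have h3 : ‖v 0‖ ^ 2 ≤ tail u τ := by
      have e : v 0 = ∫ t in τ..(τ + 1), u t := by
        change (2 : ℝ) ^ 0 • ∫ t in τ..(τ + (1 / 2) ^ 0), u t = _
        rw [pow_zero, pow_zero, one_smul]
      rw [e]
      have h4 : ‖∫ t in τ..(τ + 1), u t‖ ≤ ∫ t in τ..(τ + 1), ‖u t‖ :=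
        intervalIntegral.norm_integral_le_integral_norm (by linarith)
      have h5 := cs_interval (by linarith : τ < τ + 1) (hui τ (τ + 1)).norm
        (sq_intInt hs.um hs.ub τ (τ + 1))
      rw [tail_sub hi τ (τ + 1) hτ0.le (by linarith), add_sub_cancel_left, one_mul] at h5
      have h6 := tail_nonneg u (τ + 1)
      have h7 := pow_le_pow_left₀ (norm_nonneg _) h4 2
      linarith
    have h4 := hexp τ hτ0.le
    have h5 : Real.exp (-(l * τ)) ≤ Real.exp (-(l / 8 * τ)) ^ 2 := by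
      rw [← Real.exp_nat_mul, Real.exp_le_exp]
      push_cast
      have : 0 < l * τ := by positivity
      linarith
    have h6 : C₁ ≤ (1 + C₁) ^ 2 := by nlinarith
    have h7 : ‖v 0‖ ^ 2 ≤ ((1 + C₁) * Real.exp (-(l / 8 * τ))) ^ 2 := by
      calc ‖v 0‖ ^ 2 ≤ C₁ * Real.exp (-(l * τ)) := h3.trans h4
        _ ≤ (1 + C₁) ^ 2 * Real.exp (-(l / 8 * τ)) ^ 2 := by gcongr
        _ = ((1 + C₁) * Real.exp (-(l / 8 * τ))) ^ 2 := by ring
    exact le_of_pow_le_pow_left₀ (by norm_num) (by positivity) h7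
  have h3 : ‖u τ‖ ≤ ‖v 0‖ + dist (v 0) (u τ) := by
    have := norm_le_norm_add_norm_sub' (u τ) (v 0)
    rwa [norm_sub_rev, ← dist_eq_norm] at this
  have h4 : D * Real.exp (-(l / 8 * τ)) * r / (1 - r)
      = D * r / (1 - r) * Real.exp (-(l / 8 * τ)) := by ring
  have h5 : 0 ≤ M * Real.exp (l / 4) * Real.exp (-(l / 8 * τ)) := by positivity
  rw [h4] at h1
  calc ‖u τ‖ ≤ (1 + C₁) * Real.exp (-(l / 8 * τ))
        + D * r / (1 - r) * Real.exp (-(l / 8 * τ)) := by linarith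
    _ ≤ (1 + C₁ + D * r / (1 - r) + M * Real.exp (l / 4)) * Real.exp (-(l / 8 * τ)) := by
        linarith

end Pool.Agent.X19.KE
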