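import Pool.Agent.X19.KE.Defs
import Pool.Agent.X19.KE.Point

/-!
# Pointwise decay for degenerate equations
-/

set_option autoImplicit false

open Set Filter Topology MeasureTheory RCLike

open scoped InnerProductSpace

namespace Pool.Agent.X19.KE

set_option linter.unusedSectionVars false

variable {𝕜 H : Type*} [RCLike 𝕜] [NormedAddCommGroup H] [InnerProductSpace 𝕜 H]
  [CompleteSpace H] {A : H →L[𝕜] H} {B : H →L[𝕜] H →L[𝕜] H} {V : Submodule 𝕜 H} {up : H}

/-- The coercivity on the constraint. -/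
theorem neg_of (h : Hyp A B V up) : ∃ c : ℝ, 0 < c ∧ ∃ η : ℝ, 0 < η ∧ ∀ x s : H,
    Vᗮ.orthogonalProjectionOnto (A x) = 0 → ‖s‖ ≤ η →
      re ⟪(2 : 𝕜) • B up x + B s x, x⟫_𝕜 ≤ -(c * ‖x‖ ^ 2) := by
  obtain ⟨δ, hδ, hneg⟩ := h.T_neg
  have : CompleteSpace V := h.V_closed.completeSpace_coe
  have := h.V_fin
  let L : Vᗮ →ₗ[𝕜] Vᗮ := (Vᗮ.orthogonalProjectionOnto ∘L A ∘L Vᗮ.subtypeL : Vᗮ →L[𝕜] Vᗮ)
  have hL : ∀ x : Vᗮ, L x = Vᗮ.orthogonalProjectionOnto (A x) := fun x => rfl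
  obtain ⟨κ, hκ, hanti⟩ := L.exists_antilipschitzWith (LinearMap.ker_eq_bot.2 h.A_comp.1)
  have hk : ∀ x : Vᗮ, ‖x‖ ≤ κ * ‖L x‖ := by
    intro x
    have := hanti.le_mul_dist x 0
    simpa using this
  have hproj : ∀ x : H, ‖Vᗮ.orthogonalProjectionOnto x‖ ≤ ‖x‖ := fun x =>
    Submodule.norm_orthogonalProjectionOnto_apply_le _ _
  set κ₁ : ℝ := 1 + κ * ‖A‖ with hκ₁
  have hκ₁0 : 0 < κ₁ := by positivity
  refine ⟨δ / (2 * κ₁ ^ 2), by positivity, δ / (2 * (‖B‖ * κ₁ + 1)), by positivity, ?_⟩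
  intro x s hx hs
  obtain ⟨p, hp, q, hq, rfl⟩ := V.exists_add_mem_mem_orthogonal x
  -- the norm is controlled by the component in `V`
  have hq1 : ‖q‖ ≤ κ * ‖A‖ * ‖p‖ := by
    have h1 := hk ⟨q, hq⟩
    have h2 : L ⟨q, hq⟩ = -Vᗮ.orthogonalProjectionOnto (A p) := by
      rw [hL]
      rw [map_add, map_add] at hx
      exact eq_neg_of_add_eq_zero_right hx
    rw [h2, norm_neg] at h1
    have h3 : ‖q‖ ≤ κ * ‖Vᗮ.orthogonalProjectionOnto (A p)‖ := h1
    have h4 := (hproj (A p)).trans (A.le_opNorm p)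
    calc ‖q‖ ≤ κ * ‖Vᗮ.orthogonalProjectionOnto (A p)‖ := h3
      _ ≤ κ * (‖A‖ * ‖p‖) := mul_le_mul_of_nonneg_left h4 (by positivity)
      _ = κ * ‖A‖ * ‖p‖ := by ring
  have hn : ‖p + q‖ ≤ κ₁ * ‖p‖ := by
    have := norm_add_le p q
    rw [hκ₁]
    linarith
  have hTq : (2 : 𝕜) • B up q = 0 := (h.T_ker q).2 hq
  have h1 : re ⟪(2 : 𝕜) • B up (p + q), p + q⟫_𝕜 ≤ -(δ * ‖p‖ ^ 2) := by
    have e1 : (2 : 𝕜) • B up (p + q) = (2 : 𝕜) • B up p := by
      rw [map_add, smul_add, hTq, add_zero]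
    have e2 : ⟪(2 : 𝕜) • B up p, q⟫_𝕜 = 0 := by
      rw [h.T_symm, hTq, inner_zero_right]
    rw [e1, inner_add_right, e2, add_zero]
    exact hneg p hp
  have h2 : re ⟪B s (p + q), p + q⟫_𝕜 ≤ δ / 2 * ‖p‖ ^ 2 := by
    have e1 : ⟪B s (p + q), q⟫_𝕜 = 0 := by
      have := h.B_mem s (p + q)
      exact (Submodule.mem_orthogonal V q).1 hq _ this
    rw [inner_add_right, e1, add_zero]
    have hs1 : ‖s‖ * (2 * (‖B‖ * κ₁ + 1)) ≤ δ := by
      rwa [le_div_iff₀ (by positivity)] at hs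
    calc re ⟪B s (p + q), p⟫_𝕜 ≤ ‖⟪B s (p + q), p⟫_𝕜‖ := RCLike.re_le_norm _
      _ ≤ ‖B s (p + q)‖ * ‖p‖ := norm_inner_le_norm _ _
      _ ≤ (‖B‖ * ‖s‖ * ‖p + q‖) * ‖p‖ :=
          mul_le_mul_of_nonneg_right (B.le_opNorm₂ _ _) (norm_nonneg _)
      _ ≤ (‖B‖ * ‖s‖ * (κ₁ * ‖p‖)) * ‖p‖ := by gcongr
      _ = (‖s‖ * (‖B‖ * κ₁)) * ‖p‖ ^ 2 := by ring
      _ ≤ δ / 2 * ‖p‖ ^ 2 := by
          have : ‖s‖ * (‖B‖ * κ₁) ≤ δ / 2 := by
            have := norm_nonneg s
            nlinarith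
          gcongr
  have h3 : δ / (2 * κ₁ ^ 2) * ‖p + q‖ ^ 2 ≤ δ / 2 * ‖p‖ ^ 2 := by
    calc δ / (2 * κ₁ ^ 2) * ‖p + q‖ ^ 2 ≤ δ / (2 * κ₁ ^ 2) * (κ₁ * ‖p‖) ^ 2 := by gcongr
      _ = δ / 2 * ‖p‖ ^ 2 := by
          field_simp
  rw [inner_add_left, map_add]
  linarith

variable [NormedSpace ℝ H] [IsScalarTower ℝ 𝕜 H]

variable (𝕜 H) in
/-- The real part of the inner product as a real bilinear form. -/
noncomputable def reForm : H →L[ℝ] H →L[ℝ] ℝ :=
  LinearMap.mkContinuous₂ (LinearMap.mk₂ ℝ (fun x y : H => re ⟪x, y⟫_𝕜)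
    (fun x y z => by rw [inner_add_left, map_add])
    (fun r x y => by
      rw [RCLike.real_smul_eq_coe_smul (K := 𝕜) r x, inner_smul_left, RCLike.conj_ofReal,
        RCLike.re_ofReal_mul, smul_eq_mul])
    (fun x y z => by rw [inner_add_right, map_add])
    (fun r x y => by
      rw [RCLike.real_smul_eq_coe_smul (K := 𝕜) r y, inner_smul_right, RCLike.re_ofReal_mul,
        smul_eq_mul])) 1 (fun x y => by
      rw [one_mul]
      simp only [LinearMap.mk₂_apply]
      rw [Real.norm_eq_abs]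
      exact (RCLike.abs_re_le_norm _).trans (norm_inner_le_norm _ _))

theorem reForm_apply (x y : H) : reForm 𝕜 H x y = re ⟪x, y⟫_𝕜 := rfl

/-- The fundamental theorem of calculus for vector valued absolutely continuous functions with
locally bounded derivative. -/
theorem ftc {y g : ℝ → H} {M : ℝ} (hgm : AEStronglyMeasurable g volume)
    (hgb : ∀ᵐ t, ‖g t‖ ≤ M) (b : ℝ) (hb : 0 < b) (hy : AbsolutelyContinuousOnInterval y 0 b)
    (hd : ∀ᵐ t, 0 ≤ t → HasDerivAt y (g t) t) : ∀ a, 0 ≤ a → a ≤ b →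
      y a - y 0 = ∫ t in (0 : ℝ)..a, g t := by
  have hgi : ∀ a b, IntervalIntegrable g volume a b := intInt hgm hgb
  have hG : AbsolutelyContinuousOnInterval (fun x => ∫ t in (0 : ℝ)..x, g t) 0 b := by
    have hM : 0 ≤ M := by
      obtain ⟨t, ht⟩ := hgb.exists
      exact (norm_nonneg _).trans ht
    refine LipschitzOnWith.absolutelyContinuousOnInterval (K := ⟨M, hM⟩) ?_
    refine LipschitzOnWith.of_dist_le_mul fun x _ z _ => ?_
    rw [dist_eq_norm, intervalIntegral.integral_interval_sub_left (hgi 0 x) (hgi 0 z),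
      Real.dist_eq]
    exact intervalIntegral.norm_integral_le_of_norm_le_const_ae (by
      filter_upwards [hgb] with s hs' _ using hs')
  have h1 := hy.sub hG
  obtain ⟨C, hC⟩ := h1.const_of_ae_hasDerivAt_zero (by
    have h0 : ∀ᵐ t : ℝ, t ≠ 0 := by simp [ae_iff, measure_singleton]
    filter_upwards [hd, LocallyIntegrable.ae_hasDerivAt_integral (locInt hgm hgb)] with t h2 h3 h4
    rw [uIcc_of_le hb.le] at h4
    have := (h2 h4.1).sub (h3 0)
    simpa using this)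
  intro a ha hab
  have h2 := hC a (by rw [uIcc_of_le hb.le]; exact ⟨ha, hab⟩)
  have h3 := hC 0 (by rw [uIcc_of_le hb.le]; exact ⟨le_rfl, hb.le⟩)
  simp only [Pi.sub_apply, intervalIntegral.integral_same, sub_zero] at h2 h3
  rw [h3, ← h2]
  abel

/-- The perturbation `u - u⁺`, extended by zero. -/
noncomputable def pert (u : ℝ → H) (up : H) : ℝ → H := (Ici (0 : ℝ)).indicator fun t => u t - up

omit [NormedSpace ℝ H] [IsScalarTower ℝ 𝕜 H] [CompleteSpace H] [InnerProductSpace 𝕜 H] in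
theorem pert_of {u : ℝ → H} {up : H} {t : ℝ} (ht : 0 ≤ t) : pert u up t = u t - up :=
  indicator_of_mem (show t ∈ Ici (0 : ℝ) from ht) _

omit [NormedSpace ℝ H] [IsScalarTower ℝ 𝕜 H] [CompleteSpace H] in
theorem Q_expand (h0 : B up up = 0) (hsym : ∀ x y, B x y = B y x) (v : H) :
    B v v = (2 : 𝕜) • B up (v - up) + B (v - up) (v - up) := by
  simp only [map_sub, _root_.sub_apply, h0, hsym v up, two_smul]
  abel

/-- The perturbation of a solution close to `u⁺`. -/
theorem toSol (h : Hyp A B V up) {u : ℝ → H} (hu : IsSolution A B u) {ε : ℝ} (hε : 0 ≤ ε)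
    (hb : ∀ᵐ t, 0 ≤ t → ‖u t - up‖ ≤ ε) :
    ∃ y, Sol (A.restrictScalars ℝ) (pert u up)
      (fun t => (2 : 𝕜) • B up (pert u up t) + B (pert u up t) (pert u up t)) y ε
      (2 * ‖B‖ * ‖up‖ * ε + ‖B‖ * ε ^ 2) := by
  obtain ⟨y, hyA, hyac, hyd⟩ := hu.eq
  have hwm : AEStronglyMeasurable (pert u up) volume := by
    unfold pert
    rw [aestronglyMeasurable_indicator_iff measurableSet_Ici]
    exact hu.meas.sub aestronglyMeasurable_const
  have hfm : AEStronglyMeasurable (fun t => (2 : 𝕜) • B up (pert u up t)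
      + B (pert u up t) (pert u up t)) volume := by
    have hc : Continuous fun x : H => (2 : 𝕜) • B up x + B x x := by fun_prop
    exact hc.comp_aestronglyMeasurable hwm
  have hwb : ∀ᵐ t, ‖pert u up t‖ ≤ ε := by
    filter_upwards [hb] with t ht
    by_cases h0 : 0 ≤ t
    · rw [pert_of h0]
      exact ht h0
    · have : pert u up t = 0 := indicator_of_notMem (by simpa using h0) _
      rw [this, norm_zero]
      exact hε
  have hfb : ∀ᵐ t, ‖(2 : 𝕜) • B up (pert u up t) + B (pert u up t) (pert u up t)‖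
      ≤ 2 * ‖B‖ * ‖up‖ * ε + ‖B‖ * ε ^ 2 := by
    filter_upwards [hwb] with t ht
    refine (norm_add_le _ _).trans (add_le_add ?_ ?_)
    · rw [norm_smul, RCLike.norm_ofNat]
      calc 2 * ‖B up (pert u up t)‖ ≤ 2 * (‖B‖ * ‖up‖ * ‖pert u up t‖) :=
            mul_le_mul_of_nonneg_left (B.le_opNorm₂ _ _) (by norm_num)
        _ ≤ 2 * (‖B‖ * ‖up‖ * ε) := by gcongr
        _ = 2 * ‖B‖ * ‖up‖ * ε := by ring
    · calc ‖B (pert u up t) (pert u up t)‖ ≤ ‖B‖ * ‖pert u up t‖ * ‖pert u up t‖ :=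
            B.le_opNorm₂ _ _
        _ ≤ ‖B‖ * ε * ε := by gcongr
        _ = ‖B‖ * ε ^ 2 := by ring
  have hd : ∀ᵐ t, 0 ≤ t → HasDerivAt y ((2 : 𝕜) • B up (pert u up t)
      + B (pert u up t) (pert u up t)) t := by
    filter_upwards [hyd] with t h1 ht
    rw [pert_of ht, ← Q_expand h.Q_up h.B_symm]
    exact h1 ht
  have hfi := intInt hfm hfb
  refine ⟨fun t => y t - A up, hwm, hfm, hwb, hfb, ?_, ?_⟩
  · intro a b ha hab
    have h1 := ftc hfm hfb (b + 1) (by linarith) (hyac (b + 1) (by linarith)) hd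
    have h2 := h1 a ha (by linarith)
    have h3 := h1 b (by linarith) (by linarith)
    rw [← intervalIntegral.integral_interval_sub_left (hfi 0 b) (hfi 0 a), ← h2, ← h3]
    abel
  · filter_upwards [hyA] with t h1 ht
    rw [pert_of ht.le, h1 ht.le]
    simp

/-- The conserved quantity. -/
theorem conserved (h : Hyp A B V up) {u y : ℝ → H} {M F : ℝ}
    (hs : Sol (A.restrictScalars ℝ) (pert u up)
      (fun t => (2 : 𝕜) • B up (pert u up t) + B (pert u up t) (pert u up t)) y M F) :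
    ∃ z : Vᗮ, ∀ᵐ t, 0 < t → Vᗮ.orthogonalProjectionOnto (A (u t - up)) = z := by
  have : CompleteSpace V := h.V_closed.completeSpace_coe
  refine ⟨Vᗮ.orthogonalProjectionOnto (y 0), ?_⟩
  filter_upwards [hs.eq] with t ht ht0
  have h1 : A (u t - up) = y t := by
    rw [ht ht0, pert_of ht0.le]
    rfl
  rw [h1, ← sub_eq_zero, ← map_sub, hs.int 0 t le_rfl ht0.le,
    Submodule.orthogonalProjectionOnto_eq_zero_iff, Submodule.orthogonal_orthogonal]
  rw [intervalIntegral.integral_of_le ht0.le]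
  have h2 : IntegrableOn (fun t => (2 : 𝕜) • B up (pert u up t)
      + B (pert u up t) (pert u up t)) (Ioc 0 t) := by
    have := intInt hs.fm hs.fb 0 t
    rwa [intervalIntegrable_iff_integrableOn_Ioc_of_le ht0.le] at this
  rw [← Submodule.orthogonal_orthogonal V, Submodule.mem_orthogonal]
  intro z hz
  have h3 := integral_inner (𝕜 := 𝕜) h2 z
  rw [← h3]
  refine integral_eq_zero_of_ae (Eventually.of_forall fun s => ?_)
  have h4 : (2 : 𝕜) • B up (pert u up s) + B (pert u up s) (pert u up s) ∈ V :=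
    V.add_mem (V.smul_mem _ (h.B_mem _ _)) (h.B_mem _ _)
  exact (Submodule.mem_orthogonal' V z).1 hz _ h4

/-- Pointwise decay with uniform constants. -/
theorem main_decay (h : Hyp A B V up) : ∃ ε C b : ℝ, 0 < ε ∧ 0 < C ∧ 0 < b ∧
    ∀ u : ℝ → H, IsSolution A B u → (∀ᵐ t, 0 ≤ t → ‖u t - up‖ ≤ ε) →
      (∀ᵐ t, 0 ≤ t → Vᗮ.orthogonalProjectionOnto (A (u t - up)) = 0) →
      ∀ᵐ t, 0 ≤ t → ‖u t - up‖ ≤ C * Real.exp (-(b * t)) := by
  obtain ⟨c, hc, η, hη, hneg⟩ := neg_of h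
  obtain ⟨C, b, hC, hb, hmain⟩ := pointwise (A.restrictScalars ℝ) (reForm 𝕜 H)
    (fun x y => by
      rw [reForm_apply, reForm_apply]
      change re ⟪A x, y⟫_𝕜 = re ⟪A y, x⟫_𝕜
      rw [h.A_symm, inner_re_symm])
    (fun x y => by
      rw [reForm_apply]
      exact (RCLike.abs_re_le_norm _).trans (norm_inner_le_norm _ _)) c hc (η / 2)
    (2 * ‖B‖ * ‖up‖ * (η / 2) + ‖B‖ * (η / 2) ^ 2) (by positivity)
  refine ⟨η / 2, C, b, by positivity, hC, hb, ?_⟩
  intro u hu hsm hcons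
  obtain ⟨y, hs⟩ := toSol h hu (by positivity : 0 ≤ η / 2) hsm
  have h1 := hmain _ _ _ hs ?_ ?_
  · have h0 : ∀ᵐ t : ℝ, t ≠ 0 := by simp [ae_iff, measure_singleton]
    filter_upwards [h1, h0] with t h2 h3 h4
    have h5 : 0 < t := lt_of_le_of_ne h4 (Ne.symm h3)
    have := h2 h5
    rwa [pert_of h4] at this
  · filter_upwards [hcons, hs.ub] with t h2 h3 ht
    rw [reForm_apply]
    refine hneg _ _ ?_ (by linarith)
    rw [pert_of ht.le]
    exact h2 ht.le
  · intro k hk hk1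
    filter_upwards [hcons, shift_ae k hcons, hs.ub, shift_ae k hs.ub] with t h2 h2' h3 h3' ht
    rw [reForm_apply]
    have e : ((2 : 𝕜) • B up (pert u up (t + k)) + B (pert u up (t + k)) (pert u up (t + k)))
        - ((2 : 𝕜) • B up (pert u up t) + B (pert u up t) (pert u up t))
        = (2 : 𝕜) • B up (pert u up (t + k) - pert u up t)
          + B (pert u up (t + k) + pert u up t) (pert u up (t + k) - pert u up t) := by
      simp only [map_sub, map_add, _root_.add_apply,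
        h.B_symm (pert u up t) (pert u up (t + k)), smul_sub]
      abel
    rw [e]
    refine hneg _ _ ?_ ?_
    · rw [pert_of ht.le, pert_of (by linarith : (0 : ℝ) ≤ t + k), map_sub, map_sub, h2 ht.le,
        h2' (by linarith), sub_zero]
    · refine (norm_add_le _ _).trans ?_
      linarith

/-- Constant solutions. -/
theorem const_solution (h0 : B up up = 0) : IsSolution A B (fun _ => up) := by
  refine ⟨aestronglyMeasurable_const, ⟨‖up‖, Eventually.of_forall fun t _ => le_rfl⟩,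
    fun _ => A up, Eventually.of_forall fun t _ => rfl, fun b _ => ?_,
    Eventually.of_forall fun t _ => ?_⟩
  · exact (contDiffOn_const (𝕜 := ℝ) (n := 1)).absolutelyContinuousOnInterval
  · rw [h0]
    exact hasDerivAt_const _ _

theorem exists_const (h : Hyp A B V up) (ε : ℝ) (hε : 0 < ε) :
    ∃ x : H, x ≠ up ∧ ‖x - up‖ ≤ ε ∧ IsSolution A B (fun _ => x) := by
  have : CompleteSpace V := h.V_closed.completeSpace_coe
  -- a vector `v ≠ 0` along which `Q (u⁺ + v) = 0`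
  have key : ∃ v : H, v ≠ 0 ∧ ∀ r : 𝕜, B (up + r • v) (up + r • v) = 0 := by
    by_cases hup : up = 0
    · subst hup
      have hV : V = ⊥ := by
        rw [Submodule.eq_bot_iff]
        intro x hx
        have h1 : x ∈ Vᗮ := (h.T_ker x).1 (by simp)
        exact inner_self_eq_zero.1 ((Submodule.mem_orthogonal V x).1 h1 x hx)
      have hB : ∀ x y, B x y = 0 := by
        intro x y
        have := h.B_mem x y
        rwa [hV, Submodule.mem_bot] at this
      obtain ⟨v, hv⟩ : ∃ v : H, v ∉ V := by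
        by_contra hcon
        push Not at hcon
        exact h.V_ne (Submodule.eq_top_iff'.2 hcon)
      refine ⟨v, fun h0 => hv (h0 ▸ V.zero_mem), fun r => hB _ _⟩
    · refine ⟨up, hup, fun r => ?_⟩
      have : up + r • up = (1 + r) • up := by rw [add_smul, one_smul]
      rw [this]
      simp [h.Q_up]
  obtain ⟨v, hv, hB⟩ := key
  have hv0 : 0 < ‖v‖ := norm_pos_iff.2 hv
  refine ⟨up + ((ε / ‖v‖ : ℝ) : 𝕜) • v, ?_, ?_, const_solution (hB _)⟩
  · intro h1
    have h2 : ((ε / ‖v‖ : ℝ) : 𝕜) • v = 0 := by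
      rwa [add_eq_left] at h1
    rcases smul_eq_zero.1 h2 with h3 | h3
    · have : ε / ‖v‖ = 0 := by exact_mod_cast h3
      have h4 : 0 < ε / ‖v‖ := by positivity
      exact h4.ne' this
    · exact hv h3
  · rw [add_sub_cancel_left, norm_smul, RCLike.norm_ofReal, abs_of_pos (by positivity)]
    rw [div_mul_cancel₀ _ hv0.ne']

theorem neBot_ae_atTop : (ae (volume : Measure ℝ) ⊓ atTop).NeBot := by
  rw [Filter.inf_neBot_iff]
  intro s hs t ht
  obtain ⟨N, hN⟩ := mem_atTop_sets.1 ht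
  by_contra hcon
  rw [not_nonempty_iff_eq_empty] at hcon
  have h1 : Ici N ⊆ sᶜ := fun x hx hxs => by
    have : x ∈ s ∩ t := ⟨hxs, hN x hx⟩
    rw [hcon] at this
    exact this
  have h2 : (volume : Measure ℝ) (Ici N) = 0 := measure_mono_null h1 (mem_ae_iff.1 hs)
  rw [Real.volume_Ici] at h2
  exact ENNReal.top_ne_zero h2

/-- The full statement. -/
theorem main (h : Hyp A B V up) :
    (∃ ε C b : ℝ, 0 < ε ∧ 0 < C ∧ 0 < b ∧
      ∀ u : ℝ → H, IsSolution A B u → (∀ᵐ t, 0 ≤ t → ‖u t - up‖ ≤ ε) →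
        List.TFAE [
          ∀ᵐ t, 0 ≤ t → ‖u t - up‖ ≤ C * Real.exp (-(b * t)),
          ∃ C' b' : ℝ, 0 < b' ∧ ∀ᵐ t, 0 ≤ t → ‖u t - up‖ ≤ C' * Real.exp (-(b' * t)),
          ∃ b' : ℝ, 0 < b' ∧
            MemLp (fun t => Real.exp (b' * t) • (u t - up)) 2 (volume.restrict (Ici 0)),
          ∃ p : ENNReal, p ≠ 0 ∧ p ≠ ⊤ ∧ MemLp (fun t => u t - up) p (volume.restrict (Ici 0)),
          Tendsto (fun t => u t - up) (ae volume ⊓ atTop) (𝓝 0),
          ∀ᵐ t, 0 ≤ t → Vᗮ.orthogonalProjectionOnto (A (u t - up)) = 0]) ∧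
    (∀ ε : ℝ, 0 < ε → ∃ x : H, x ≠ up ∧ ‖x - up‖ ≤ ε ∧ IsSolution A B (fun _ => x)) := by
  refine ⟨?_, exists_const h⟩
  obtain ⟨ε, C, b, hε, hC, hb, hmain⟩ := main_decay (h := h)
  refine ⟨ε, C, b, hε, hC, hb, fun u hu hsm => ?_⟩
  obtain ⟨y, hs⟩ := toSol h hu hε.le hsm
  obtain ⟨z, hz⟩ := conserved h hs
  have h0 : ∀ᵐ t : ℝ, t ≠ 0 := by simp [ae_iff, measure_singleton]
  have hz' : ∀ᵐ t, 0 ≤ t → Vᗮ.orthogonalProjectionOnto (A (u t - up)) = z := by
    filter_upwards [hz, h0] with t h1 h2 h3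
    exact h1 (lt_of_le_of_ne h3 (Ne.symm h2))
  have hzero : z = 0 → ∀ᵐ t, 0 ≤ t → Vᗮ.orthogonalProjectionOnto (A (u t - up)) = 0 := by
    rintro rfl
    exact hz'
  tfae_have 1 → 2 := fun h1 => ⟨C, b, hb, h1⟩
  tfae_have 2 → 3 := by
    rintro ⟨C', b', hb', h1⟩
    refine ⟨b' / 2, by positivity, ?_⟩
    have hm : AEStronglyMeasurable (fun t => Real.exp (b' / 2 * t) • (u t - up))
        (volume.restrict (Ici 0)) := by
      have hc : Continuous fun t : ℝ => Real.exp (b' / 2 * t) := by fun_prop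
      exact hc.aestronglyMeasurable.smul (hu.meas.sub aestronglyMeasurable_const)
    rw [memLp_two_iff_integrable_sq_norm hm]
    have hi : IntegrableOn (fun t : ℝ => C' ^ 2 * Real.exp (-b' * t)) (Ici 0) := by
      rw [integrableOn_Ici_iff_integrableOn_Ioi]
      exact (exp_neg_integrableOn_Ioi 0 hb').const_mul _
    refine hi.mono' (hm.norm.pow 2) ?_
    filter_upwards [ae_restrict_of_ae h1, ae_restrict_mem measurableSet_Ici] with t h2 h3
    have h4 := h2 h3
    have h5 : 0 ≤ C' := by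
      have := (norm_nonneg _).trans h4
      exact nonneg_of_mul_nonneg_left this (Real.exp_pos _)
    rw [norm_pow, norm_norm, norm_smul, Real.norm_eq_abs, abs_of_pos (Real.exp_pos _)]
    calc (Real.exp (b' / 2 * t) * ‖u t - up‖) ^ 2
        ≤ (Real.exp (b' / 2 * t) * (C' * Real.exp (-(b' * t)))) ^ 2 := by gcongr
      _ = C' ^ 2 * Real.exp (-b' * t) := by
          have : Real.exp (-b' * t) = (Real.exp (b' / 2 * t) * Real.exp (-(b' * t))) ^ 2 := by
            rw [← Real.exp_add, ← Real.exp_nat_mul]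
            congr 1
            push_cast
            ring
          rw [this]
          ring
  tfae_have 3 → 4 := by
    rintro ⟨b', hb', h1⟩
    refine ⟨2, by norm_num, by norm_num, ?_⟩
    refine h1.mono (hu.meas.sub aestronglyMeasurable_const) ?_
    filter_upwards [ae_restrict_mem measurableSet_Ici] with t h3
    have h3' : (0 : ℝ) ≤ t := h3
    rw [norm_smul, Real.norm_eq_abs, abs_of_pos (Real.exp_pos _)]
    exact le_mul_of_one_le_left (norm_nonneg _) (Real.one_le_exp (by positivity))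
  tfae_have 4 → 6 := by
    rintro ⟨p, hp0, hpt, h1⟩
    have h2 := (Vᗮ.orthogonalProjectionOnto ∘L A : H →L[𝕜] Vᗮ).comp_memLp' h1
    have h3 : MemLp (fun _ : ℝ => z) p (volume.restrict (Ici 0)) := by
      refine h2.ae_eq ?_
      filter_upwards [ae_restrict_of_ae hz', ae_restrict_mem measurableSet_Ici] with t h4 h5
      exact h4 h5
    rcases (memLp_const_iff hp0 hpt).1 h3 with h4 | h4
    · exact hzero h4
    · rw [Measure.restrict_apply_univ, Real.volume_Ici] at h4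
      exact absurd h4 (lt_irrefl _)
  tfae_have 2 → 5 := by
    rintro ⟨C', b', hb', h1⟩
    have h2 : Tendsto (fun t : ℝ => C' * Real.exp (-(b' * t))) (ae volume ⊓ atTop) (𝓝 0) := by
      have h3 : Tendsto (fun t : ℝ => C' * Real.exp (-(b' * t))) atTop (𝓝 (C' * 0)) := by
        refine Tendsto.const_mul _ (Real.tendsto_exp_neg_atTop_nhds_zero.comp ?_)
        exact tendsto_id.const_mul_atTop hb'
      rw [mul_zero] at h3
      exact h3.mono_left inf_le_right
    refine squeeze_zero_norm' ?_ h2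
    have h4 : ∀ᶠ t in ae volume ⊓ atTop, 0 ≤ t → ‖u t - up‖ ≤ C' * Real.exp (-(b' * t)) :=
      h1.filter_mono inf_le_left
    have h5 : ∀ᶠ t : ℝ in ae volume ⊓ atTop, 0 ≤ t :=
      (eventually_ge_atTop 0).filter_mono inf_le_right
    filter_upwards [h4, h5] with t h6 h7 using h6 h7
  tfae_have 5 → 6 := by
    intro h1
    have hne := neBot_ae_atTop
    have h2 : Tendsto (fun t => (Vᗮ.orthogonalProjectionOnto ∘L A : H →L[𝕜] Vᗮ) (u t - up))
        (ae volume ⊓ atTop) (𝓝 0) := by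
      have := ((Vᗮ.orthogonalProjectionOnto ∘L A : H →L[𝕜] Vᗮ).continuous.tendsto 0).comp h1
      rwa [map_zero] at this
    have h4 : ∀ᶠ t in ae volume ⊓ atTop, 0 ≤ t →
        Vᗮ.orthogonalProjectionOnto (A (u t - up)) = z := hz'.filter_mono inf_le_left
    have h5 : ∀ᶠ t : ℝ in ae volume ⊓ atTop, 0 ≤ t :=
      (eventually_ge_atTop 0).filter_mono inf_le_right
    have h3 : Tendsto (fun t => (Vᗮ.orthogonalProjectionOnto ∘L A : H →L[𝕜] Vᗮ) (u t - up))
        (ae volume ⊓ atTop) (𝓝 z) := by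
      refine Tendsto.congr' ?_ tendsto_const_nhds
      filter_upwards [h4, h5] with t h6 h7
      exact (h6 h7).symm
    exact hzero (tendsto_nhds_unique h3 h2)
  tfae_have 6 → 1 := fun h1 => hmain u hu hsm h1
  tfae_finish

end Pool.Agent.X19.KE
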